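import Mathlib

/-! `2 ^ φ (n) ≤ 8 Φ_n (2)`. -/

namespace Pool.Agent.Lib.MP_32a6f5_nt

open Finset Nat Polynomial

open scoped ArithmeticFunction.Moebius

/-- The value `Φ_n (2)` as a real number. -/
noncomputable def cyc (n : ℕ) : ℝ := (cyclotomic n ℝ).eval 2

theorem cyc_pos (n : ℕ) : 0 < cyc n := cyclotomic_pos' n one_lt_two

theorem prod_cyc {n : ℕ} (hn : 0 < n) : ∏ i ∈ n.divisors, cyc i = 2 ^ n - 1 := by
  have h := congrArg (Polynomial.eval 2) (prod_cyclotomic_eq_X_pow_sub_one hn ℝ)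
  rw [eval_prod] at h
  simpa [cyc] using h

theorem sum_log_cyc {n : ℕ} (hn : 0 < n) :
    ∑ i ∈ n.divisors, (Real.log (cyc i) - φ i * Real.log 2) = Real.log (1 - (1 / 2) ^ n) := by
  rw [Finset.sum_sub_distrib, ← Finset.sum_mul, ← Nat.cast_sum, Nat.sum_totient,
    ← Real.log_prod fun i _ => (cyc_pos i).ne', prod_cyc hn]
  have h2 : (1 : ℝ) < 2 ^ n := one_lt_pow₀ one_lt_two hn.ne'
  rw [← Real.log_pow, ← Real.log_div (by linarith) (by positivity)]
  congr 1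
  rw [sub_div, div_self (by positivity), one_div_pow]

theorem abs_log_le {n : ℕ} (hn : 0 < n) : |Real.log (1 - (1 / 2 : ℝ) ^ n)| ≤ 2 * (1 / 2) ^ n := by
  have h1 : (1 / 2 : ℝ) ^ n ≤ 1 / 2 := by
    calc (1 / 2 : ℝ) ^ n ≤ (1 / 2) ^ 1 := pow_le_pow_of_le_one (by norm_num) (by norm_num) hn
      _ = 1 / 2 := pow_one _
  have h0 : (0 : ℝ) < (1 / 2) ^ n := by positivity
  set x : ℝ := (1 / 2) ^ n with hx
  have hpos : 0 < 1 - x := by linarith
  rw [abs_of_nonpos (Real.log_nonpos hpos.le (by linarith))]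
  have h2 := Real.one_sub_inv_le_log_of_pos hpos
  have h3 : (1 - x)⁻¹ - 1 ≤ 2 * x := by
    rw [sub_le_iff_le_add, inv_le_iff_one_le_mul₀ hpos]
    nlinarith
  linarith

theorem sum_half (n : ℕ) : ∑ i ∈ Finset.Icc 1 n, 2 * (1 / 2 : ℝ) ^ i = 2 - 2 * (1 / 2) ^ n := by
  induction n with
  | zero => simp
  | succ n ih =>
    rw [Finset.sum_Icc_succ_top (by omega), ih, pow_succ]
    ring

theorem two_pow_totient_le {n : ℕ} (hn : 0 < n) : (2 : ℝ) ^ (φ n) ≤ 8 * cyc n := by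
  have h := (ArithmeticFunction.sum_eq_iff_sum_mul_moebius_eq
    (f := fun i => Real.log (cyc i) - φ i * Real.log 2)
    (g := fun i => Real.log (1 - (1 / 2 : ℝ) ^ i))).1 (fun m hm => sum_log_cyc hm) n hn
  have h1 : |∑ x ∈ n.divisorsAntidiagonal, ((μ x.fst : ℤ) : ℝ) * Real.log (1 - (1 / 2 : ℝ) ^ x.snd)| ≤
      ∑ x ∈ n.divisorsAntidiagonal, 2 * (1 / 2 : ℝ) ^ x.snd := by
    refine (Finset.abs_sum_le_sum_abs _ _).trans (Finset.sum_le_sum fun x hx => ?_)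
    have hx2 : 0 < x.snd := Nat.pos_of_mem_divisors
      (Nat.snd_mem_divisors_of_mem_antidiagonal hx)
    rw [abs_mul]
    have h3 : |((μ x.fst : ℤ) : ℝ)| ≤ 1 := by
      have := ArithmeticFunction.abs_moebius_le_one (n := x.fst)
      exact_mod_cast this
    calc |((μ x.fst : ℤ) : ℝ)| * |Real.log (1 - (1 / 2 : ℝ) ^ x.snd)|
        ≤ 1 * |Real.log (1 - (1 / 2 : ℝ) ^ x.snd)| :=
          mul_le_mul_of_nonneg_right h3 (abs_nonneg _)
      _ ≤ _ := by rw [one_mul]; exact abs_log_le hx2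
  have h2 : ∑ x ∈ n.divisorsAntidiagonal, 2 * (1 / 2 : ℝ) ^ x.snd ≤ 2 := by
    rw [Nat.sum_divisorsAntidiagonal' (f := fun _ b => 2 * (1 / 2 : ℝ) ^ b)]
    calc ∑ i ∈ n.divisors, 2 * (1 / 2 : ℝ) ^ i ≤ ∑ i ∈ Finset.Icc 1 n, 2 * (1 / 2 : ℝ) ^ i := by
          refine Finset.sum_le_sum_of_subset_of_nonneg ?_ fun i _ _ => by positivity
          intro i hi
          exact Finset.mem_Icc.2 ⟨Nat.pos_of_mem_divisors hi, Nat.divisor_le hi⟩
      _ ≤ 2 := by rw [sum_half]; have : (0 : ℝ) < (1 / 2) ^ n := by positivity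
                  linarith
  rw [h] at h1
  have h4 := (abs_le.1 (h1.trans h2)).1
  have h5 : Real.log ((2 : ℝ) ^ (φ n)) ≤ Real.log (8 * cyc n) := by
    rw [Real.log_pow, Real.log_mul (by norm_num) (cyc_pos n).ne',
      show (8 : ℝ) = 2 ^ 3 by norm_num, Real.log_pow]
    have := Real.log_two_gt_d9
    push_cast
    linarith
  exact (Real.log_le_log_iff (by positivity) (mul_pos (by norm_num) (cyc_pos n))).1 h5

/-- The value `Φ_n (2)` as a natural number. -/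
noncomputable def cycN (n : ℕ) : ℕ := ((cyclotomic n ℤ).eval 2).toNat

theorem cycN_cast (n : ℕ) : ((cycN n : ℕ) : ℤ) = (cyclotomic n ℤ).eval 2 := by
  unfold cycN
  exact Int.toNat_of_nonneg (cyclotomic_pos' n one_lt_two).le

theorem cycN_cast_real (n : ℕ) : ((cycN n : ℕ) : ℝ) = cyc n := by
  have h : ((cycN n : ℕ) : ℝ) = (((cycN n : ℕ) : ℤ) : ℝ) := by norm_cast
  rw [h, cycN_cast, cyc, ← map_cyclotomic_int n ℝ, eval_map, eval₂_at_ofNat]
  simp

theorem two_pow_totient_le_nat {n : ℕ} (hn : 0 < n) : 2 ^ (φ n) ≤ 8 * cycN n := by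
  have := two_pow_totient_le hn
  rw [← cycN_cast_real] at this
  exact_mod_cast this

theorem cycN_pos (n : ℕ) : 0 < cycN n := by
  have := cyclotomic_pos' n (R := ℤ) one_lt_two
  rw [← cycN_cast] at this
  exact_mod_cast this

end Pool.Agent.Lib.MP_32a6f5_nt
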