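import Mathlib

/-! `k ≤ W * φ (k)` as soon as `k < (W + 1)!`. -/

namespace Pool.Agent.Lib.MP_32a6f5_nt

open Finset Nat

theorem card_add_two_le {S : Finset ℕ} {a : ℕ} (hS : ∀ p ∈ S, 2 ≤ p) (ha : ∀ x ∈ S, x < a)
    (h2 : 2 ≤ a) : S.card + 2 ≤ a := by
  have : S ⊆ Finset.Ico 2 a := fun x hx => Finset.mem_Ico.2 ⟨hS x hx, ha x hx⟩
  have := Finset.card_le_card this
  rw [Nat.card_Ico] at this
  omega

theorem fact_le_prod (S : Finset ℕ) : (∀ p ∈ S, 2 ≤ p) → (S.card + 1)! ≤ ∏ p ∈ S, p := by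
  induction S using Finset.induction_on_max with
  | empty => simp
  | insert a s h ih =>
    intro hS
    have has : a ∉ s := fun hh => lt_irrefl _ (h a hh)
    have hs : ∀ p ∈ s, 2 ≤ p := fun p hp => hS p (Finset.mem_insert_of_mem hp)
    have h2 : 2 ≤ a := hS a (Finset.mem_insert_self _ _)
    have hc := card_add_two_le hs h h2
    rw [Finset.card_insert_of_notMem has, Finset.prod_insert has, Nat.factorial_succ]
    exact Nat.mul_le_mul (by omega) (ih hs)

theorem prod_le_card_mul (S : Finset ℕ) : (∀ p ∈ S, 2 ≤ p) →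
    ∏ p ∈ S, p ≤ (S.card + 1) * ∏ p ∈ S, (p - 1) := by
  induction S using Finset.induction_on_max with
  | empty => simp
  | insert a s h ih =>
    intro hS
    have has : a ∉ s := fun hh => lt_irrefl _ (h a hh)
    have hs : ∀ p ∈ s, 2 ≤ p := fun p hp => hS p (Finset.mem_insert_of_mem hp)
    have h2 : 2 ≤ a := hS a (Finset.mem_insert_self _ _)
    have hc := card_add_two_le hs h h2
    rw [Finset.card_insert_of_notMem has, Finset.prod_insert has, Finset.prod_insert has]
    obtain ⟨c, rfl⟩ : ∃ c, a = s.card + 2 + c := ⟨a - (s.card + 2), by omega⟩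
    have e : s.card + 2 + c - 1 = s.card + 1 + c := by omega
    rw [e]
    calc (s.card + 2 + c) * ∏ p ∈ s, p ≤ (s.card + 2 + c) * ((s.card + 1) * ∏ p ∈ s, (p - 1)) :=
          Nat.mul_le_mul_left _ (ih hs)
      _ ≤ (s.card + 1 + 1) * ((s.card + 1 + c) * ∏ p ∈ s, (p - 1)) := by
          rw [← mul_assoc, ← mul_assoc]
          apply Nat.mul_le_mul_right
          nlinarith

theorem le_mul_totient {k W : ℕ} (hk : 0 < k) (hW : k < (W + 1)!) : k ≤ W * φ k := by
  have h2 : ∀ p ∈ k.primeFactors, 2 ≤ p := fun p hp => (Nat.prime_of_mem_primeFactors hp).two_le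
  have h1 : (k.primeFactors.card + 1)! ≤ k :=
    (fact_le_prod _ h2).trans (Nat.le_of_dvd hk (Nat.prod_primeFactors_dvd k))
  have h3 : k.primeFactors.card + 1 ≤ W := by
    by_contra hlt
    push Not at hlt
    have := Nat.factorial_le (show W + 1 ≤ k.primeFactors.card + 1 by omega)
    omega
  have h4 := Nat.totient_mul_prod_primeFactors k
  have h5 := prod_le_card_mul k.primeFactors h2
  have hpos : 0 < ∏ p ∈ k.primeFactors, p := Finset.prod_pos fun p hp => by
    have := h2 p hp; omega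
  refine Nat.le_of_mul_le_mul_right ?_ hpos
  calc k * ∏ p ∈ k.primeFactors, p ≤ k * ((k.primeFactors.card + 1) * ∏ p ∈ k.primeFactors, (p - 1)) :=
        Nat.mul_le_mul_left _ h5
    _ = (k.primeFactors.card + 1) * (φ k * ∏ p ∈ k.primeFactors, p) := by rw [h4]; ring
    _ ≤ W * (φ k * ∏ p ∈ k.primeFactors, p) := Nat.mul_le_mul_right _ h3
    _ = W * φ k * ∏ p ∈ k.primeFactors, p := by ring

end Pool.Agent.Lib.MP_32a6f5_nt
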