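import Mathlib
import Pool.Agent.Lib.MP_32a6f5_nt.CycloBound
import Pool.Agent.Lib.MP_32a6f5_nt.Totient

/-! A large prime power dividing `2 ^ k - 1`, at a prime larger than `k`. -/

namespace Pool.Agent.Lib.MP_32a6f5_nt

open Finset Nat Polynomial

theorem cycN_dvd (n : ℕ) : cycN n ∣ 2 ^ n - 1 := by
  obtain ⟨P, hP⟩ := cyclotomic.dvd_X_pow_sub_one n ℤ
  have h := congrArg (Polynomial.eval 2) hP
  rw [eval_mul, ← cycN_cast] at h
  have h2 : ((2 ^ n - 1 : ℕ) : ℤ) = (2 : ℤ) ^ n - 1 := by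
    rw [Nat.cast_sub (Nat.one_le_two_pow)]; norm_num
  rw [← Int.natCast_dvd_natCast, h2]
  refine ⟨eval 2 P, ?_⟩
  rw [← h]
  simp

theorem dvd_sub_one {k q : ℕ} (hq : q.Prime) (hd : q ∣ cycN k) (hk : ¬ q ∣ k) (hk0 : 0 < k) :
    k ∣ q - 1 := by
  have : Fact q.Prime := ⟨hq⟩
  have h2 : ¬ q ∣ 2 := by
    intro h
    have hq2 : q = 2 := (Nat.prime_dvd_prime_iff_eq hq Nat.prime_two).1 h
    subst hq2
    have h1 := hd.trans (cycN_dvd k)
    have h3 : 2 ∣ 2 ^ k := dvd_pow_self 2 hk0.ne'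
    have h4 : 1 ≤ 2 ^ k := Nat.one_le_two_pow
    omega
  have hroot : IsRoot (cyclotomic k (ZMod q)) (2 : ZMod q) := by
    have h1 : (q : ℤ) ∣ (cyclotomic k ℤ).eval 2 := by
      rw [← cycN_cast]; exact_mod_cast hd
    have h3 := (ZMod.intCast_zmod_eq_zero_iff_dvd _ q).2 h1
    rw [IsRoot.def, ← map_cyclotomic_int k (ZMod q), eval_map, eval₂_at_ofNat]
    simpa using h3
  have : NeZero (k : ZMod q) := NeZero.of_not_dvd (ZMod q) hk
  have h4 : k = orderOf (2 : ZMod q) := (isRoot_cyclotomic_iff.mp hroot).eq_orderOf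
  have h5 : orderOf (2 : ZMod q) ∣ q - 1 :=
    ZMod.orderOf_dvd_card_sub_one (fun h => h2 ((ZMod.natCast_eq_zero_iff 2 q).1 (by exact_mod_cast h)))
  rwa [← h4] at h5

theorem factorization_le_one {k q : ℕ} (hq : q.Prime) (hk : q ∣ k) (hk0 : 0 < k) :
    (cycN k).factorization q ≤ 1 := by
  by_contra hlt
  push Not at hlt
  have : Fact q.Prime := ⟨hq⟩
  have hdA : q ∣ cycN k := by
    by_contra h
    rw [Nat.factorization_eq_zero_of_not_dvd h] at hlt
    omega
  have h1 : q ∣ 2 ^ k - 1 := hdA.trans (cycN_dvd k)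
  obtain ⟨m, rfl⟩ := hk
  have hm : 0 < m := Nat.pos_of_mul_pos_left hk0
  have hq2 : q ≠ 2 := by
    rintro rfl
    have h3 : 2 ∣ 2 ^ (2 * m) := dvd_pow_self 2 hk0.ne'
    have h4 : 1 ≤ 2 ^ (2 * m) := Nat.one_le_two_pow
    omega
  have hodd : Odd q := hq.odd_of_ne_two hq2
  have hge : ∀ j : ℕ, 1 ≤ 2 ^ j := fun j => Nat.one_le_two_pow
  -- `q` divides `2 ^ m - 1`
  have hqm : q ∣ 2 ^ m - 1 := by
    have e1 : (2 : ZMod q) ^ (q * m) = 1 := by
      have := (ZMod.natCast_eq_zero_iff (2 ^ (q * m) - 1) q).2 h1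
      rw [Nat.cast_sub (hge _)] at this
      push_cast at this
      exact sub_eq_zero.1 this
    have e2 : (2 : ZMod q) ^ m = 1 := by
      rw [mul_comm, pow_mul, ZMod.pow_card] at e1
      exact e1
    rw [← ZMod.natCast_eq_zero_iff, Nat.cast_sub (hge _)]
    push_cast
    rw [e2, sub_self]
  have hnd : ¬ q ∣ 2 ^ m := by
    intro h
    have := Nat.Prime.dvd_of_dvd_pow hq h
    exact hq2 ((Nat.prime_dvd_prime_iff_eq hq Nat.prime_two).1 this)
  have hm1 : 1 < 2 ^ m := Nat.one_lt_two_pow hm.ne'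
  have hLTE := padicValNat.pow_sub_pow (p := q) hodd (x := 2 ^ m) (y := 1) hm1 hqm hnd (n := q)
    hq.ne_zero
  rw [one_pow, ← pow_mul, mul_comm m q, padicValNat.self hq.one_lt] at hLTE
  -- the product `(2 ^ m - 1) * A` divides `2 ^ k - 1`
  have hdvd : (2 ^ m - 1) * cycN (q * m) ∣ 2 ^ (q * m) - 1 := by
    have hmem : m ∈ (q * m).properDivisors := by
      rw [Nat.mem_properDivisors]
      refine ⟨Dvd.intro_left _ rfl, ?_⟩
      have := hq.two_le
      nlinarith
    obtain ⟨P, hP⟩ := X_pow_sub_one_mul_cyclotomic_dvd_X_pow_sub_one_of_dvd ℤ hmem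
    have h := congrArg (Polynomial.eval 2) hP
    rw [eval_mul, eval_mul, ← cycN_cast] at h
    rw [← Int.natCast_dvd_natCast, Nat.cast_mul, Nat.cast_sub (hge _), Nat.cast_sub (hge _)]
    refine ⟨eval 2 P, ?_⟩
    push_cast
    simpa using h
  have hne : 2 ^ (q * m) - 1 ≠ 0 := by
    have := Nat.one_lt_two_pow hk0.ne'
    omega
  have hne1 : 2 ^ m - 1 ≠ 0 := by omega
  have h5 := (Nat.factorization_le_iff_dvd (mul_ne_zero hne1 (cycN_pos _).ne') hne).2 hdvd q
  rw [Nat.factorization_mul hne1 (cycN_pos _).ne', Finsupp.add_apply,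
    Nat.factorization_def _ hq, Nat.factorization_def (2 ^ (q * m) - 1) hq, hLTE] at h5
  omega

/-- If all prime powers dividing `2 ^ k - 1` at primes larger than `k` are at most `X`, then
`Φ_k (2) ≤ k * X ^ (X / k)`. -/
theorem cycN_le {k X : ℕ} (hk0 : 0 < k)
    (hX : ∀ q e : ℕ, q.Prime → k < q → q ^ e ∣ 2 ^ k - 1 → q ^ e ≤ X) :
    cycN k ≤ k * X ^ (X / k) := by
  set A := cycN k with hA
  have hA0 : A ≠ 0 := (cycN_pos k).ne'
  have hfac : A = ∏ q ∈ A.primeFactors, q ^ (A.factorization q) := by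
    conv_lhs => rw [← Nat.factorization_prod_pow_eq_self hA0]
    rfl
  rw [hfac, ← Finset.prod_filter_mul_prod_filter_not A.primeFactors (fun q => q ∣ k)]
  refine Nat.mul_le_mul ?_ ?_
  · calc ∏ q ∈ A.primeFactors with q ∣ k, q ^ (A.factorization q)
        ≤ ∏ q ∈ A.primeFactors with q ∣ k, q := by
          refine Finset.prod_le_prod' fun q hq => ?_
          obtain ⟨hq1, hq2⟩ := Finset.mem_filter.1 hq
          have hqp := Nat.prime_of_mem_primeFactors hq1
          calc q ^ (A.factorization q) ≤ q ^ 1 :=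
                Nat.pow_le_pow_right hqp.pos (factorization_le_one hqp hq2 hk0)
            _ = q := pow_one q
      _ ≤ ∏ q ∈ k.primeFactors, q := by
          refine Finset.prod_le_prod_of_subset_of_one_le' ?_ ?_
          · intro q hq
            obtain ⟨hq1, hq2⟩ := Finset.mem_filter.1 hq
            exact Nat.mem_primeFactors.2 ⟨Nat.prime_of_mem_primeFactors hq1, hq2, hk0.ne'⟩
          · intro q hq _
            exact (Nat.prime_of_mem_primeFactors hq).one_le
      _ ≤ k := Nat.le_of_dvd hk0 (Nat.prod_primeFactors_dvd k)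
  · set S := A.primeFactors.filter (fun q => ¬ q ∣ k) with hS
    have hSp : ∀ q ∈ S, q.Prime ∧ q ∣ A ∧ k ∣ q - 1 ∧ q ≤ X ∧ q ^ (A.factorization q) ≤ X := by
      intro q hq
      obtain ⟨hq1, hq2⟩ := Finset.mem_filter.1 hq
      have hqp := Nat.prime_of_mem_primeFactors hq1
      have hqA := Nat.dvd_of_mem_primeFactors hq1
      have h1 : k ∣ q - 1 := dvd_sub_one hqp hqA hq2 hk0
      have h2 : k < q := by
        have := Nat.le_of_dvd (Nat.sub_pos_of_lt hqp.one_lt) h1
        have := hqp.two_le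
        omega
      have h3 : q ^ (A.factorization q) ∣ 2 ^ k - 1 := (Nat.ordProj_dvd A q).trans (cycN_dvd k)
      have h4 := hX q _ hqp h2 h3
      refine ⟨hqp, hqA, h1, ?_, h4⟩
      refine le_trans ?_ h4
      exact Nat.le_self_pow (hqp.factorization_pos_of_dvd hA0 hqA).ne' q
    have hcard : S.card ≤ X / k := by
      have hsub : S ⊆ (Finset.Icc 1 (X / k)).image (fun j => j * k + 1) := by
        intro q hq
        obtain ⟨hqp, _, ⟨j, hj⟩, hqX, _⟩ := hSp q hq
        have h1 : q = j * k + 1 := by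
          have := hqp.two_le
          rw [mul_comm j k, ← hj]; omega
        refine Finset.mem_image.2 ⟨j, Finset.mem_Icc.2 ⟨?_, ?_⟩, h1.symm⟩
        · by_contra h0
          have : j = 0 := by omega
          subst this
          have := hqp.two_le
          omega
        · rw [Nat.le_div_iff_mul_le hk0]
          omega
      refine (Finset.card_le_card hsub).trans (Finset.card_image_le.trans ?_)
      rw [Nat.card_Icc, Nat.add_sub_cancel]
    calc ∏ q ∈ S, q ^ (A.factorization q) ≤ ∏ _q ∈ S, X :=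
          Finset.prod_le_prod' fun q hq => (hSp q hq).2.2.2.2
      _ = X ^ S.card := by rw [Finset.prod_const]
      _ ≤ X ^ (X / k) := by
          rcases Nat.eq_zero_or_pos X with h0 | h0
          · have : S.card = 0 := by
              rw [h0, Nat.zero_div] at hcard
              omega
            rw [this, h0, Nat.zero_div]
          · exact Nat.pow_le_pow_right h0 hcard

/-- The existence of a large prime power. -/
theorem exists_big {k L a W X κ : ℕ} (hκ : κ ≤ k) (hκ0 : 0 < κ) (hkL : k < 2 ^ L)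
    (hX : X < 2 ^ a) (hW : 2 ^ L ≤ (W + 1)!) (hcrit : W * (κ * (L + 3) + X * a) ≤ κ ^ 2) :
    ∃ q e : ℕ, q.Prime ∧ k < q ∧ X < q ^ e ∧ q ^ e ∣ 2 ^ k - 1 := by
  by_contra hno
  push Not at hno
  have hk0 : 0 < k := by omega
  have h1 : cycN k ≤ k * X ^ (X / k) := by
    refine cycN_le hk0 fun q e hq hkq hd => ?_
    by_contra hlt
    push Not at hlt
    exact hno q e hq hkq hlt hd
  have h2 : k ≤ W * φ k := le_mul_totient hk0 (lt_of_lt_of_le hkL hW)
  have h3 := two_pow_totient_le_nat hk0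
  -- size of the totient
  have h4 : 2 ^ (φ k) < 2 ^ (3 + L + a * (X / k)) := by
    calc 2 ^ (φ k) ≤ 8 * cycN k := h3
      _ ≤ 8 * (k * X ^ (X / k)) := Nat.mul_le_mul_left _ h1
      _ ≤ 8 * (k * (2 ^ a) ^ (X / k)) :=
          Nat.mul_le_mul_left _ (Nat.mul_le_mul_left _ (Nat.pow_le_pow_left hX.le _))
      _ < 8 * (2 ^ L * (2 ^ a) ^ (X / k)) := by
          refine Nat.mul_lt_mul_of_pos_left ?_ (by norm_num)
          exact Nat.mul_lt_mul_of_pos_right hkL (by positivity)
      _ = 2 ^ (3 + L + a * (X / k)) := by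
          rw [pow_add, pow_add, pow_mul]; norm_num [mul_assoc]
  have h5 : φ k < 3 + L + a * (X / k) := (Nat.pow_lt_pow_iff_right (by norm_num)).1 h4
  have h6 : k * φ k < k * (L + 3) + X * a := by
    calc k * φ k < k * (3 + L + a * (X / k)) := Nat.mul_lt_mul_of_pos_left h5 hk0
      _ = k * (L + 3) + a * (X / k * k) := by ring
      _ ≤ k * (L + 3) + a * X := Nat.add_le_add_left (Nat.mul_le_mul_left _ (Nat.div_mul_le_self _ _)) _
      _ = k * (L + 3) + X * a := by ring
  have hW0 : 0 < W := by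
    rcases Nat.eq_zero_or_pos W with h | h
    · subst h
      rw [zero_mul] at h2
      omega
    · exact h
  have h7 : k * k < W * (k * (L + 3) + X * a) := by
    calc k * k ≤ k * (W * φ k) := Nat.mul_le_mul_left _ h2
      _ = W * (k * φ k) := by ring
      _ < _ := Nat.mul_lt_mul_of_pos_left h6 hW0
  -- monotonicity in `k`
  obtain ⟨d, rfl⟩ := Nat.exists_eq_add_of_le hκ
  have h8 : W * (L + 3) ≤ κ := by
    have : W * (L + 3) * κ ≤ κ * κ := by
      calc W * (L + 3) * κ = W * (κ * (L + 3)) := by ring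
        _ ≤ W * (κ * (L + 3) + X * a) := Nat.mul_le_mul_left _ (Nat.le_add_right _ _)
        _ ≤ κ ^ 2 := hcrit
        _ = κ * κ := sq κ
    exact Nat.le_of_mul_le_mul_right this hκ0
  have h9 : W * ((κ + d) * (L + 3) + X * a) ≤ κ * κ + d * κ := by
    calc W * ((κ + d) * (L + 3) + X * a) = W * (κ * (L + 3) + X * a) + d * (W * (L + 3)) := by ring
      _ ≤ κ ^ 2 + d * κ := Nat.add_le_add hcrit (Nat.mul_le_mul_left _ h8)
      _ = κ * κ + d * κ := by ring
  have h10 : (κ + d) * (κ + d) = κ * κ + d * κ + (κ * d + d * d) := by ring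
  omega

end Pool.Agent.Lib.MP_32a6f5_nt
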