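import Mathlib

/-! Lower bounds for the number of primes between `2 ^ (w - 1)` and `2 ^ w`, `5 ≤ w ≤ 15`. -/

namespace Pool.Agent.Lib.MP_32a6f5_nt

open Finset

/-- The number of `n` with `n0 ≤ n < n0 + 2 ^ d` prime to `D`. -/
def cb (D : ℕ) : ℕ → ℕ → ℕ
  | 0, n => bif Nat.beq (Nat.gcd n D) 1 then 1 else 0
  | d + 1, n => cb D d n + cb D d (n + 2 ^ d)

theorem cb_eq (D d : ℕ) : ∀ n, cb D d n =
    ((Finset.Ico n (n + 2 ^ d)).filter (fun m => Nat.gcd m D = 1)).card := by
  induction d with
  | zero =>
    intro n
    rw [cb, pow_zero, Nat.Ico_succ_singleton, Finset.filter_singleton]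
    by_cases h : Nat.gcd n D = 1
    · rw [if_pos h, h]; rfl
    · rw [if_neg h]
      have : Nat.beq (Nat.gcd n D) 1 = false := by
        rw [← Bool.not_eq_true]
        exact fun h' => h (Nat.eq_of_beq_eq_true h')
      rw [this]; rfl
  | succ d ih =>
    intro n
    rw [cb, ih, ih, ← Finset.card_union_of_disjoint]
    · congr 1
      rw [← Finset.filter_union, Finset.Ico_union_Ico_eq_Ico (Nat.le_add_right _ _) (Nat.le_add_right _ _), add_assoc,
        ← two_mul, ← pow_succ']
    · refine Finset.disjoint_filter_filter ?_
      exact Finset.Ico_disjoint_Ico_consecutive _ _ _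

/-- The primes of the block `w`. -/
def blk (w : ℕ) : Finset ℕ := (Finset.Ioo (2 ^ (w - 1)) (2 ^ w)).filter Nat.Prime

theorem cb_le {w h D c : ℕ} (hw : 2 ≤ w) (h1 : 1 ≤ h) (hh : w ≤ 2 * h) (hD : (2 ^ h).factorial = D)
    (hc : cb D (w - 1) (2 ^ (w - 1)) = c) : c ≤ (blk w).card := by
  rw [← hc, cb_eq]
  refine Finset.card_le_card fun n hn => ?_
  rw [Finset.mem_filter, Finset.mem_Ico] at hn
  obtain ⟨⟨h2, h3⟩, h4⟩ := hn
  have e : 2 ^ (w - 1) + 2 ^ (w - 1) = 2 ^ w := by
    rw [← two_mul, ← pow_succ']
    congr 1; omega
  rw [e] at h3
  have hfac : ∀ d : ℕ, 1 < d → d ≤ 2 ^ h → ¬ d ∣ n := by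
    intro d hd1 hd2 hd
    have h5 : d ∣ Nat.gcd n D := Nat.dvd_gcd hd (hD ▸ Nat.dvd_factorial (by omega) hd2)
    rw [h4, Nat.dvd_one] at h5
    omega
  have hn1 : 1 < n := by
    have : 2 ^ 1 ≤ 2 ^ (w - 1) := Nat.pow_le_pow_right (by norm_num) (by omega)
    omega
  have h2h : 2 ≤ 2 ^ h := by
    calc 2 = 2 ^ 1 := rfl
      _ ≤ 2 ^ h := Nat.pow_le_pow_right (by norm_num) h1
  refine Finset.mem_filter.2 ⟨Finset.mem_Ioo.2 ⟨?_, h3⟩, ?_⟩
  · refine lt_of_le_of_ne h2 fun heq => ?_
    refine hfac 2 (by norm_num) h2h ?_
    rw [← heq]
    exact dvd_pow_self 2 (by omega)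
  · by_contra hnp
    have h6 := Nat.minFac_sq_le_self (by omega) hnp
    have h7 : n.minFac ≤ 2 ^ h := by
      by_contra hlt
      push Not at hlt
      have : (2 ^ h) ^ 2 < n.minFac ^ 2 := Nat.pow_lt_pow_left hlt (by norm_num)
      have h8 : 2 ^ w ≤ (2 ^ h) ^ 2 := by
        rw [← pow_mul]
        exact Nat.pow_le_pow_right (by norm_num) (by omega)
      omega
    exact hfac _ (Nat.minFac_prime (by omega)).one_lt h7 (Nat.minFac_dvd n)

/-- The number of primes of the block `w` (for `5 ≤ w ≤ 15`, otherwise `0`). -/
def Nw : ℕ → ℕ
  | 5 => 5
  | 6 => 7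
  | 7 => 13
  | 8 => 23
  | 9 => 43
  | 10 => 75
  | 11 => 137
  | 12 => 255
  | 13 => 464
  | 14 => 872
  | 15 => 1612
  | _ => 0

theorem fac3 : (2 ^ 3).factorial = 40320 := by decide +kernel

theorem fac4 : (2 ^ 4).factorial = 20922789888000 := by decide +kernel

theorem fac5 : (2 ^ 5).factorial = 263130836933693530167218012160000000 := by decide +kernel

theorem fac6 : (2 ^ 6).factorial = 126886932185884164103433389335161480802865516174545192198801894375214704230400000000000000 := by decide +kernel

theorem fac7 : (2 ^ 7).factorial = 385620482362580421735677065923463640617493109590223590278828403276373402575165543560686168588507361534030051833058916347592172932262498857766114955245039357760034644709279247692495585280000000000000000000000000000000 := by decide +kernel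

theorem fac8 : (2 ^ 8).factorial = 857817775342842654119082271681232625157781520279485619859655650377269452553147589377440291360451408450375885342336584306157196834693696475322289288497426025679637332563368786442675207626794560187968867971521143307702077526646451464709187326100832876325702818980773671781454170250523018608495319068138257481070252817559459476987034665712738139286205234756808218860701203611083152093501947437109101726968262861606263662435022840944191408424615936000000000000000000000000000000000000000000000000000000000000000 := by decide +kernel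

theorem cb5 : cb 40320 (5 - 1) (2 ^ (5 - 1)) = 5 := by decide +kernel

theorem cb6 : cb 40320 (6 - 1) (2 ^ (6 - 1)) = 7 := by decide +kernel

theorem cb7 : cb 20922789888000 (7 - 1) (2 ^ (7 - 1)) = 13 := by decide +kernel

theorem cb8 : cb 20922789888000 (8 - 1) (2 ^ (8 - 1)) = 23 := by decide +kernel

theorem cb9 : cb 263130836933693530167218012160000000 (9 - 1) (2 ^ (9 - 1)) = 43 := by decide +kernel

theorem cb10 : cb 263130836933693530167218012160000000 (10 - 1) (2 ^ (10 - 1)) = 75 := by decide +kernel

theorem cb11 : cb 126886932185884164103433389335161480802865516174545192198801894375214704230400000000000000 (11 - 1) (2 ^ (11 - 1)) = 137 := by decide +kernel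

theorem cb12 : cb 126886932185884164103433389335161480802865516174545192198801894375214704230400000000000000 (12 - 1) (2 ^ (12 - 1)) = 255 := by decide +kernel

theorem cb13 : cb 385620482362580421735677065923463640617493109590223590278828403276373402575165543560686168588507361534030051833058916347592172932262498857766114955245039357760034644709279247692495585280000000000000000000000000000000 (13 - 1) (2 ^ (13 - 1)) = 464 := by decide +kernel

theorem cb14 : cb 385620482362580421735677065923463640617493109590223590278828403276373402575165543560686168588507361534030051833058916347592172932262498857766114955245039357760034644709279247692495585280000000000000000000000000000000 (14 - 1) (2 ^ (14 - 1)) = 872 := by decide +kernel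

theorem cb15 : cb 857817775342842654119082271681232625157781520279485619859655650377269452553147589377440291360451408450375885342336584306157196834693696475322289288497426025679637332563368786442675207626794560187968867971521143307702077526646451464709187326100832876325702818980773671781454170250523018608495319068138257481070252817559459476987034665712738139286205234756808218860701203611083152093501947437109101726968262861606263662435022840944191408424615936000000000000000000000000000000000000000000000000000000000000000 (15 - 1) (2 ^ (15 - 1)) = 1612 := by decide +kernel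

theorem Nw_le (w : ℕ) : Nw w ≤ (blk w).card := by
  unfold Nw
  split
  · exact cb_le (by norm_num) (by norm_num) (by norm_num) fac3 cb5
  · exact cb_le (by norm_num) (by norm_num) (by norm_num) fac3 cb6
  · exact cb_le (by norm_num) (by norm_num) (by norm_num) fac4 cb7
  · exact cb_le (by norm_num) (by norm_num) (by norm_num) fac4 cb8
  · exact cb_le (by norm_num) (by norm_num) (by norm_num) fac5 cb9
  · exact cb_le (by norm_num) (by norm_num) (by norm_num) fac5 cb10
  · exact cb_le (by norm_num) (by norm_num) (by norm_num) fac6 cb11
  · exact cb_le (by norm_num) (by norm_num) (by norm_num) fac6 cb12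
  · exact cb_le (by norm_num) (by norm_num) (by norm_num) fac7 cb13
  · exact cb_le (by norm_num) (by norm_num) (by norm_num) fac7 cb14
  · exact cb_le (by norm_num) (by norm_num) (by norm_num) fac8 cb15
  · exact Nat.zero_le _

end Pool.Agent.Lib.MP_32a6f5_nt
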