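import Mathlib

/-! The number of `k`-th roots of unity modulo an odd number `M` is at most
`k * ∏_{p ∣ M} gcd (k, p - 1)`. -/

namespace Pool.Agent.Lib.MP_32a6f5_nt

open Finset

/-- The number of solutions of `x ^ k = 1` modulo `m`. -/
noncomputable def R (k m : ℕ) : ℕ := Nat.card {x : ZMod m // x ^ k = 1}

theorem R_one (k : ℕ) : R k 1 = 1 := by
  unfold R
  have : Unique {x : ZMod 1 // x ^ k = 1} :=
    { default := ⟨1, one_pow k⟩
      uniq := fun x => Subtype.ext (Subsingleton.elim _ _) }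
  exact Nat.card_unique

theorem R_mul (k : ℕ) {m n : ℕ} (h : m.Coprime n) : R k (m * n) = R k m * R k n := by
  unfold R
  rw [← Nat.card_prod]
  refine Nat.card_congr ?_
  refine ((ZMod.chineseRemainder h).toEquiv.subtypeEquiv
    (q := fun x : ZMod m × ZMod n => x.1 ^ k = 1 ∧ x.2 ^ k = 1) ?_).trans
    (Equiv.subtypeProdEquivProd (p := fun x : ZMod m => x ^ k = 1) (q := fun y : ZMod n => y ^ k = 1))
  intro x
  constructor
  · intro hx
    have : (ZMod.chineseRemainder h x) ^ k = 1 := by rw [← map_pow, hx, map_one]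
    exact ⟨congrArg Prod.fst this, congrArg Prod.snd this⟩
  · intro hx
    apply (ZMod.chineseRemainder h).injective
    rw [map_pow, map_one]
    exact Prod.ext hx.1 hx.2

theorem R_prime_pow_le {k p e : ℕ} (hk : 0 < k) (hp : p.Prime) (h2 : p ≠ 2) :
    R k (p ^ e) ≤ Nat.gcd k (Nat.totient (p ^ e)) := by
  have : NeZero (p ^ e) := ⟨pow_ne_zero _ hp.ne_zero⟩
  have : IsCyclic (ZMod (p ^ e))ˣ := ZMod.isCyclic_units_of_prime_pow p hp h2 e
  set g := Nat.gcd k (Nat.totient (p ^ e)) with hg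
  have hgpos : 0 < g := Nat.gcd_pos_of_pos_left _ hk
  have hcard := IsCyclic.card_pow_eq_one_le (α := (ZMod (p ^ e))ˣ) hgpos
  refine le_trans ?_ hcard
  unfold R
  have : Nat.card {x : ZMod (p ^ e) // x ^ k = 1} ≤
      Nat.card {u : (ZMod (p ^ e))ˣ // u ^ g = 1} := by
    refine Nat.card_le_card_of_injective
      (fun x => ⟨Units.ofPowEqOne x.1 k x.2 hk.ne', ?_⟩) ?_
    · have h1 : (Units.ofPowEqOne x.1 k x.2 hk.ne') ^ k = 1 := Units.pow_ofPowEqOne _ _
      have h2 : (Units.ofPowEqOne x.1 k x.2 hk.ne') ^ (Nat.totient (p ^ e)) = 1 :=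
        ZMod.pow_totient _
      exact pow_gcd_eq_one.2 ⟨h1, h2⟩
    · intro x y hxy
      have := congrArg (fun u : {u : (ZMod (p ^ e))ˣ // u ^ g = 1} => (u.1 : ZMod (p ^ e))) hxy
      exact Subtype.ext (by simpa using this)
  refine this.trans (le_of_eq ?_)
  rw [Nat.card_eq_fintype_card, Fintype.card_subtype]

theorem gcd_le {k p e : ℕ} (hk : 0 < k) (hp : p.Prime) (he : 0 < e) :
    Nat.gcd k (Nat.totient (p ^ e)) ≤ p ^ (k.factorization p) * Nat.gcd k (p - 1) := by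
  rw [Nat.totient_prime_pow hp he]
  have hp1 : 0 < p - 1 := Nat.sub_pos_of_lt hp.one_lt
  have h1 : Nat.gcd k (p ^ (e - 1) * (p - 1)) ≤ Nat.gcd k (p ^ (e - 1)) * Nat.gcd k (p - 1) :=
    Nat.le_of_dvd (Nat.mul_pos (Nat.gcd_pos_of_pos_left _ hk) (Nat.gcd_pos_of_pos_left _ hk))
      (Nat.gcd_mul_right_dvd_mul_gcd _ _ _)
  refine h1.trans (Nat.mul_le_mul_right _ ?_)
  obtain ⟨j, hj, hj2⟩ := (Nat.dvd_prime_pow hp).1 (Nat.gcd_dvd_right k (p ^ (e - 1)))
  rw [hj2]
  apply Nat.pow_le_pow_right hp.pos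
  have : p ^ j ∣ k := hj2 ▸ Nat.gcd_dvd_left k (p ^ (e - 1))
  exact (hp.pow_dvd_iff_le_factorization hk.ne').1 this

theorem R_le_prod {k M : ℕ} (hk : 0 < k) (hM : M ≠ 0) (hodd : ¬ 2 ∣ M) :
    R k M ≤ ∏ p ∈ M.primeFactors, (p ^ (k.factorization p) * Nat.gcd k (p - 1)) := by
  induction M using Nat.recOnPosPrimePosCoprime with
  | zero => exact absurd rfl hM
  | one => simp [R_one]
  | prime_pow p n hp hn =>
    rw [Nat.primeFactors_prime_pow hn.ne' hp, Finset.prod_singleton]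
    have h2 : p ≠ 2 := by
      rintro rfl
      exact hodd (dvd_pow_self 2 hn.ne')
    exact (R_prime_pow_le hk hp h2).trans (gcd_le hk hp hn)
  | coprime a b ha hb hab iha ihb =>
    rw [R_mul k hab, hab.primeFactors_mul, Finset.prod_union hab.disjoint_primeFactors]
    exact Nat.mul_le_mul (iha (by omega) fun h => hodd (h.mul_right _))
      (ihb (by omega) fun h => hodd (h.mul_left _))

theorem prod_ordProj_le {k : ℕ} (hk : 0 < k) (S : Finset ℕ) (hS : ∀ p ∈ S, p.Prime) :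
    ∏ p ∈ S, p ^ (k.factorization p) ≤ k := by
  refine Nat.le_of_dvd hk ?_
  refine Finset.prod_dvd_of_isRelPrime ?_ fun p _ => Nat.ordProj_dvd k p
  intro p hp q hq hpq
  rw [Function.onFun, ← Nat.coprime_iff_isRelPrime]
  exact Nat.Coprime.pow _ _ ((Nat.coprime_primes (hS p hp) (hS q hq)).2 hpq)

theorem R_le {k M : ℕ} (hk : 0 < k) (hM : M ≠ 0) (hodd : ¬ 2 ∣ M) :
    R k M ≤ k * ∏ p ∈ M.primeFactors, Nat.gcd k (p - 1) := by
  refine (R_le_prod hk hM hodd).trans ?_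
  rw [Finset.prod_mul_distrib]
  exact Nat.mul_le_mul_right _ (prod_ordProj_le hk _ fun p hp => Nat.prime_of_mem_primeFactors hp)

theorem R_pos {k M : ℕ} (hM : M ≠ 0) : 0 < R k M := by
  have : NeZero M := ⟨hM⟩
  unfold R
  have : Nonempty {x : ZMod M // x ^ k = 1} := ⟨⟨1, one_pow k⟩⟩
  exact Nat.card_pos

/-- Logarithmic form. -/
theorem log_R_le {k M : ℕ} (hk : 0 < k) (hM : M ≠ 0) (hodd : ¬ 2 ∣ M) :
    Real.log (R k M) ≤ Real.log k + ∑ p ∈ M.primeFactors, Real.log (Nat.gcd k (p - 1)) := by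
  have h := R_le hk hM hodd
  have hpos : ∀ p ∈ M.primeFactors, (0 : ℝ) < (Nat.gcd k (p - 1) : ℕ) := fun p _ => by
    exact_mod_cast Nat.gcd_pos_of_pos_left _ hk
  have h1 : (R k M : ℝ) ≤ k * ∏ p ∈ M.primeFactors, (Nat.gcd k (p - 1) : ℝ) := by
    exact_mod_cast h
  have h0 : (0 : ℝ) < R k M := by exact_mod_cast R_pos hM
  have hprod : (0 : ℝ) < ∏ p ∈ M.primeFactors, (Nat.gcd k (p - 1) : ℝ) := Finset.prod_pos hpos
  calc Real.log (R k M) ≤ Real.log (k * ∏ p ∈ M.primeFactors, (Nat.gcd k (p - 1) : ℝ)) :=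
        Real.log_le_log h0 h1
    _ = _ := by
        rw [Real.log_mul (by exact_mod_cast hk.ne') hprod.ne', Real.log_prod]
        intro p hp
        exact (hpos p hp).ne'

end Pool.Agent.Lib.MP_32a6f5_nt
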