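import Mathlib
import Pool.Agent.Lib.MP_32a6f5_nt.Roots

/-! Many products of small primes are roots of unity: if all primes of `P` are at most `Y`,
satisfy `p ^ k = 1` modulo `M` and `Y ^ u ≤ M`, then `|P| ^ u ≤ u ^ u R (k, M)`. -/

namespace Pool.Agent.Lib.MP_32a6f5_nt

open Finset

theorem multiset_eq_of_prod_eq {s t : Multiset ℕ} (hs : ∀ p ∈ s, p.Prime) (ht : ∀ p ∈ t, p.Prime)
    (h : s.prod = t.prod) : s = t := by
  have h1 : s.toList.Perm (Nat.primeFactorsList s.prod) :=
    Nat.primeFactorsList_unique (by rw [Multiset.prod_toList]) (fun p hp => hs p (by simpa using hp))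
  have h2 : t.toList.Perm (Nat.primeFactorsList t.prod) :=
    Nat.primeFactorsList_unique (by rw [Multiset.prod_toList]) (fun p hp => ht p (by simpa using hp))
  rw [h] at h1
  have h3 := h1.trans h2.symm
  have := Multiset.coe_eq_coe.2 h3
  rwa [Multiset.coe_toList, Multiset.coe_toList] at this

theorem card_pow_le {k M Y u : ℕ} (hM : M ≠ 0) (hYu : Y ^ u ≤ M) (P : Finset ℕ)
    (hP : ∀ p ∈ P, p.Prime) (hPY : ∀ p ∈ P, p ≤ Y) (hroot : ∀ p ∈ P, (p : ZMod M) ^ k = 1) :
    P.card ^ u ≤ u ^ u * R k M := by
  classical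
  have : NeZero M := ⟨hM⟩
  -- the product of a symmetric power element
  have hprodle : ∀ s : Multiset ℕ, (∀ p ∈ s, p ≤ Y) → s.prod ≤ Y ^ (Multiset.card s) := by
    intro s hs
    exact Multiset.prod_le_pow_card s Y hs
  let f : Sym {p // p ∈ P} u → {x : ZMod M // x ^ k = 1} := fun s =>
    ⟨(((s.1.map Subtype.val).prod : ℕ) : ZMod M), by
      have : ∀ s : Multiset {p // p ∈ P},
          ((((s.map Subtype.val).prod : ℕ) : ZMod M)) ^ k = 1 := by
        intro s
        induction s using Multiset.induction_on with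
        | empty => simp
        | cons a s ih =>
          rw [Multiset.map_cons, Multiset.prod_cons, Nat.cast_mul, mul_pow, ih, hroot a.1 a.2,
            one_mul]
      exact this s.1⟩
  have hf : Function.Injective f := by
    intro s t hst
    have h1 : (((s.1.map Subtype.val).prod : ℕ) : ZMod M) =
        (((t.1.map Subtype.val).prod : ℕ) : ZMod M) := congrArg Subtype.val hst
    have hb : ∀ s : Sym {p // p ∈ P} u, 1 ≤ (s.1.map Subtype.val).prod ∧
        (s.1.map Subtype.val).prod ≤ M := by
      intro s
      constructor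
      · apply Nat.pos_of_ne_zero
        intro h0
        obtain ⟨a, _, ha⟩ := Multiset.mem_map.1 (Multiset.prod_eq_zero_iff.1 h0)
        exact (hP a.1 a.2).ne_zero ha
      · refine (hprodle _ ?_).trans ?_
        · intro p hp
          obtain ⟨a, _, rfl⟩ := Multiset.mem_map.1 hp
          exact hPY a.1 a.2
        · rw [Multiset.card_map, s.2]; exact hYu
    have h2 : (s.1.map Subtype.val).prod = (t.1.map Subtype.val).prod := by
      rw [ZMod.natCast_eq_natCast_iff] at h1
      have a1 := hb s
      have a2 := hb t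
      rcases le_total (s.1.map Subtype.val).prod (t.1.map Subtype.val).prod with h | h
      · have h3 := (Nat.modEq_iff_dvd' h).1 h1
        have h4 := Nat.eq_zero_of_dvd_of_lt h3 (by omega)
        omega
      · have h3 := (Nat.modEq_iff_dvd' h).1 h1.symm
        have h4 := Nat.eq_zero_of_dvd_of_lt h3 (by omega)
        omega
    have h3 : s.1.map Subtype.val = t.1.map Subtype.val := by
      refine multiset_eq_of_prod_eq ?_ ?_ h2
      · intro p hp
        obtain ⟨a, _, rfl⟩ := Multiset.mem_map.1 hp
        exact hP a.1 a.2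
      · intro p hp
        obtain ⟨a, _, rfl⟩ := Multiset.mem_map.1 hp
        exact hP a.1 a.2
    exact Subtype.ext (Multiset.map_injective Subtype.val_injective h3)
  have h1 : Nat.card (Sym {p // p ∈ P} u) ≤ R k M := Nat.card_le_card_of_injective f hf
  rw [Nat.card_eq_fintype_card, Sym.card_sym_eq_multichoose, Fintype.card_coe,
    Nat.multichoose_eq] at h1
  calc P.card ^ u ≤ P.card.ascFactorial u := Nat.pow_succ_le_ascFactorial _ _
    _ = u.factorial * (P.card + u - 1).choose u := Nat.ascFactorial_eq_factorial_mul_choose' _ _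
    _ ≤ u ^ u * R k M := Nat.mul_le_mul (Nat.factorial_le_pow u) h1

end Pool.Agent.Lib.MP_32a6f5_nt
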