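import Mathlib
import Pool.Agent.Lib.MP_32a6f5_nt.Roots
import Pool.Agent.Lib.MP_32a6f5_nt.Smooth

/-! Counting smooth numbers from below, and bounding their number by the number of roots. -/

namespace Pool.Agent.Lib.MP_32a6f5_nt

open Finset

/-- The numbers `1 ≤ n ≤ X` all of whose prime factors are at most `y`. -/
noncomputable def smooth (y X : ℕ) : Finset ℕ := by
  classical exact (Finset.Icc 1 X).filter (fun n => ∀ p : ℕ, p.Prime → p ∣ n → p ≤ y)

theorem mem_smooth {y X n : ℕ} :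
    n ∈ smooth y X ↔ (1 ≤ n ∧ n ≤ X) ∧ ∀ p : ℕ, p.Prime → p ∣ n → p ≤ y := by
  classical
  unfold smooth
  rw [Finset.mem_filter, Finset.mem_Icc]

theorem smooth_mono {y y' X X' : ℕ} (hy : y ≤ y') (hX : X ≤ X') : smooth y X ⊆ smooth y' X' := by
  intro n hn
  rw [mem_smooth] at hn ⊢
  exact ⟨⟨hn.1.1, hn.1.2.trans hX⟩, fun p hp hd => (hn.2 p hp hd).trans hy⟩

theorem card_smooth_self_ge {y X : ℕ} (h : X ≤ y) : X ≤ (smooth y X).card := by
  have : Finset.Icc 1 X ⊆ smooth y X := by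
    intro n hn
    rw [Finset.mem_Icc] at hn
    rw [mem_smooth]
    exact ⟨hn, fun p _ hd => (Nat.le_of_dvd hn.1 hd).trans (hn.2.trans h)⟩
  have h2 := Finset.card_le_card this
  rwa [Nat.card_Icc, Nat.add_sub_cancel] at h2

theorem pow_eq_one_of_smooth {k y Q : ℕ} (H : ∀ p : ℕ, p.Prime → p ≤ y → (p : ZMod Q) ^ k = 1)
    (n : ℕ) : n ≠ 0 → (∀ p : ℕ, p.Prime → p ∣ n → p ≤ y) → (n : ZMod Q) ^ k = 1 := by
  induction n using Nat.recOnMul with
  | zero => intro h; exact absurd rfl h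
  | one => intro _ _; simp
  | prime p hp => intro _ h; exact H p hp (h p hp dvd_rfl)
  | mul a b ha hb =>
    intro h0 h
    rw [Nat.cast_mul, mul_pow, ha (fun h' => h0 (by rw [h', zero_mul]))
      (fun p hp hd => h p hp (hd.mul_right b)), hb (fun h' => h0 (by rw [h', mul_zero]))
      (fun p hp hd => h p hp (hd.mul_left a)), one_mul]

theorem card_smooth_le {k b y X q e : ℕ} (hk : 0 < k) (hq : q.Prime) (hyq : y < q)
    (hX : X < q ^ e) (hd : q ^ e ∣ 2 ^ k - 1)
    (H : ∀ p : ℕ, p.Prime → p ≤ y → 2 ^ k - 1 ∣ p ^ b * (p ^ k - 1)) : (smooth y X).card ≤ k := by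
  set Q := q ^ e with hQ
  have hQ0 : Q ≠ 0 := pow_ne_zero _ hq.ne_zero
  have : NeZero Q := ⟨hQ0⟩
  have hroot : ∀ p : ℕ, p.Prime → p ≤ y → (p : ZMod Q) ^ k = 1 := by
    intro p hp hpy
    have h1 : Q ∣ p ^ b * (p ^ k - 1) := hd.trans (H p hp hpy)
    have hcop : Nat.Coprime Q (p ^ b) := by
      refine Nat.Coprime.pow _ _ ((Nat.coprime_primes hq hp).2 ?_)
      omega
    have h2 : Q ∣ p ^ k - 1 := hcop.dvd_of_dvd_mul_left h1
    have h3 := (ZMod.natCast_eq_zero_iff _ Q).2 h2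
    rw [Nat.cast_sub (Nat.one_le_pow _ _ hp.pos)] at h3
    push_cast at h3
    exact sub_eq_zero.1 h3
  have hR : R k Q ≤ k := by
    rcases Nat.eq_zero_or_pos e with h0 | h0
    · rw [hQ, h0, pow_zero, R_one]; exact hk
    · have hq2 : q ≠ 2 := by
        rintro rfl
        have h1 : 2 ∣ 2 ^ k - 1 := (dvd_pow_self 2 h0.ne').trans hd
        have h2 : 2 ∣ 2 ^ k := dvd_pow_self 2 hk.ne'
        have h3 : 1 ≤ 2 ^ k := Nat.one_le_two_pow
        omega
      exact (R_prime_pow_le hk hq hq2).trans (Nat.le_of_dvd hk (Nat.gcd_dvd_left _ _))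
  refine le_trans ?_ hR
  rw [← Nat.card_eq_finsetCard (smooth y X)]
  unfold R
  refine Nat.card_le_card_of_injective (fun n : smooth y X => (⟨((n : ℕ) : ZMod Q), ?_⟩ :
    {x : ZMod Q // x ^ k = 1})) ?_
  · have h := mem_smooth.1 n.2
    exact pow_eq_one_of_smooth hroot n (by omega) h.2
  · intro m n hmn
    have h1 := (mem_smooth.1 m.2).1
    have h2 := (mem_smooth.1 n.2).1
    have h3 : ((m : ℕ) : ZMod Q) = ((n : ℕ) : ZMod Q) := congrArg Subtype.val hmn
    rw [ZMod.natCast_eq_natCast_iff] at h3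
    exact Subtype.ext (Nat.ModEq.eq_of_lt_of_lt h3 (by omega) (by omega))

/-- Products of small primes times smoother numbers. -/
theorem block (P I : Finset ℕ) (z y M X : ℕ) (Xq : ℕ → ℕ)
    (hP : ∀ p ∈ P, p.Prime ∧ z < p ∧ p ≤ y ∧ p ≤ M) (hzy : z ≤ y)
    (hX : ∀ q ∈ I, M ^ q * Xq q ≤ X) :
    ∑ q ∈ I, (P.card + q - 1).choose q * (smooth z (Xq q)).card ≤ (smooth y X).card := by
  classical
  set S : Finset (Σ q : ℕ, Sym {p // p ∈ P} q × ℕ) :=
    I.sigma (fun q => (Finset.univ : Finset (Sym {p // p ∈ P} q)) ×ˢ smooth z (Xq q)) with hS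
  have hcard : S.card = ∑ q ∈ I, (P.card + q - 1).choose q * (smooth z (Xq q)).card := by
    rw [hS, Finset.card_sigma]
    refine Finset.sum_congr rfl fun q _ => ?_
    rw [Finset.card_product, Finset.card_univ, Sym.card_sym_eq_multichoose, Fintype.card_coe,
      Nat.multichoose_eq]
  rw [← hcard]
  let pr : ∀ s : Multiset {p // p ∈ P}, ℕ := fun s => (s.map Subtype.val).prod
  have hprime : ∀ s : Multiset {p // p ∈ P}, ∀ p ∈ s.map Subtype.val, p.Prime ∧ z < p ∧ p ≤ y ∧ p ≤ M := by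
    intro s p hp
    obtain ⟨a, _, rfl⟩ := Multiset.mem_map.1 hp
    exact hP a.1 a.2
  have hpos : ∀ s : Multiset {p // p ∈ P}, 0 < pr s := by
    intro s
    refine Nat.pos_of_ne_zero fun h0 => ?_
    exact (hprime s 0 (Multiset.prod_eq_zero_iff.1 h0)).1.ne_zero rfl
  have hdvd : ∀ s : Multiset {p // p ∈ P}, ∀ p : ℕ, p.Prime → p ∣ pr s → z < p ∧ p ≤ y := by
    intro s p hp hd
    obtain ⟨a, ha, hd2⟩ := (Nat.Prime.prime hp).exists_mem_multiset_dvd hd
    have h1 := hprime s a ha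
    have := (Nat.prime_dvd_prime_iff_eq hp h1.1).1 hd2
    subst this
    exact ⟨h1.2.1, h1.2.2.1⟩
  have hle : ∀ s : Multiset {p // p ∈ P}, pr s ≤ M ^ (Multiset.card s) := by
    intro s
    have := Multiset.prod_le_pow_card (s.map Subtype.val) M (fun p hp => (hprime s p hp).2.2.2)
    rwa [Multiset.card_map] at this
  refine Finset.card_le_card_of_injOn (fun x => pr x.2.1.1 * x.2.2) ?_ ?_
  · rintro ⟨q, s, n⟩ hx
    have hx' := Finset.mem_sigma.1 (Finset.mem_coe.1 hx)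
    have hq : q ∈ I := hx'.1
    have hn := mem_smooth.1 (Finset.mem_product.1 hx'.2).2
    have hn1 : (1 ≤ n ∧ n ≤ Xq q) ∧ ∀ p : ℕ, p.Prime → p ∣ n → p ≤ z := hn
    refine Finset.mem_coe.2 (mem_smooth.2 ⟨⟨?_, ?_⟩, ?_⟩)
    · exact Nat.mul_pos (hpos s.1) hn1.1.1
    · calc pr s.1 * n ≤ M ^ q * Xq q := by
            refine Nat.mul_le_mul ?_ hn1.1.2
            have := hle s.1
            rwa [s.2] at this
        _ ≤ X := hX q hq
    · intro p hp hd
      rcases (Nat.Prime.dvd_mul hp).1 hd with h | h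
      · exact (hdvd s.1 p hp h).2
      · exact (hn1.2 p hp h).trans hzy
  · rintro ⟨q, s, n⟩ hx ⟨q', s', n'⟩ hx' heq
    have hn := mem_smooth.1 (Finset.mem_product.1 (Finset.mem_sigma.1 (Finset.mem_coe.1 hx)).2).2
    have hn' := mem_smooth.1 (Finset.mem_product.1 (Finset.mem_sigma.1 (Finset.mem_coe.1 hx')).2).2
    simp only at heq hn hn'
    have hcop : ∀ (s : Multiset {p // p ∈ P}) (n : ℕ), n ≠ 0 → (∀ p : ℕ, p.Prime → p ∣ n → p ≤ z) →
        Nat.Coprime (pr s) n := by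
      intro s n hn0 hnz
      refine Nat.Coprime.symm (Nat.coprime_of_dvd fun p hp h1 h2 => ?_)
      have := (hdvd s p hp h2).1
      have := hnz p hp h1
      omega
    have e1 : pr s.1 = pr s'.1 := by
      apply Nat.dvd_antisymm
      · exact (hcop s.1 n' (by omega) hn'.2).dvd_of_dvd_mul_right (heq ▸ Dvd.intro _ rfl)
      · exact (hcop s'.1 n (by omega) hn.2).dvd_of_dvd_mul_right (heq ▸ Dvd.intro _ rfl)
    have e2 : n = n' := by
      rw [e1] at heq
      exact Nat.eq_of_mul_eq_mul_left (hpos s'.1) heq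
    have e3 : s.1 = s'.1 := by
      have h3 : s.1.map Subtype.val = s'.1.map Subtype.val :=
        multiset_eq_of_prod_eq (fun p hp => (hprime s.1 p hp).1) (fun p hp => (hprime s'.1 p hp).1) e1
      exact Multiset.map_injective Subtype.val_injective h3
    have e4 : q = q' := by
      rw [← s.2, ← s'.2, e3]
    subst e4
    subst e2
    have e5 : s = s' := Subtype.ext e3
    subst e5
    rfl

end Pool.Agent.Lib.MP_32a6f5_nt
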