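import Mathlib
import Pool.Agent.Lib.MP_32a6f5_nt.PrimeBlocks
import Pool.Agent.Lib.MP_32a6f5_nt.SmoothCount
import Pool.Agent.Lib.MP_32a6f5_nt.BigFactor

/-! The table for `2 ^ 15 ≤ k < 2 ^ 228`: many smooth numbers. -/

namespace Pool.Agent.Lib.MP_32a6f5_nt

open Finset Nat

/-- The inner sum `∑ binom (N + q - 1, q) f (T - q w)`. -/
def inner (f : ℕ → ℕ) (w N : ℕ) : ℕ → ℕ → ℕ → ℕ → ℕ
  | 0, _, _, _ => 0
  | fuel + 1, q, c, T =>
    c * f T + (bif Nat.ble w T then inner f w N fuel (q + 1) (c * (N + q) / (q + 1)) (T - w) else 0)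

/-- The count with the blocks `J, J - 1, …, J - b + 1`. -/
def cnt (r : ℕ) : ℕ → ℕ → ℕ → ℕ
  | 0, _, T => 2 ^ min T r
  | b + 1, J, T => inner (cnt r b (J - 1)) J (Nw J) (T + 1) 0 1 T

theorem choose_step (N q : ℕ) : (N + q - 1).choose q * (N + q) / (q + 1) =
    (N + (q + 1) - 1).choose (q + 1) := by
  rcases Nat.eq_zero_or_pos (N + q) with h | h
  · have h1 : N = 0 := by omega
    have h2 : q = 0 := by omega
    subst h1; subst h2; rfl
  · obtain ⟨n, hn⟩ : ∃ n, N + q = n + 1 := ⟨N + q - 1, by omega⟩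
    have h1 : N + q - 1 = n := by omega
    have h2 : N + (q + 1) - 1 = n + 1 := by omega
    rw [h1, h2, hn]
    have h3 := Nat.add_one_mul_choose_eq n q
    rw [mul_comm, h3, Nat.mul_div_cancel _ (Nat.succ_pos q)]

theorem inner_eq (f : ℕ → ℕ) (w N : ℕ) : ∀ fuel q T,
    inner f w N fuel q ((N + q - 1).choose q) T =
      ∑ i ∈ Finset.range fuel, if i * w ≤ T then (N + (q + i) - 1).choose (q + i) * f (T - i * w)
        else 0 := by
  intro fuel
  induction fuel with
  | zero => intro q T; rfl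
  | succ fuel ih =>
    intro q T
    rw [inner, choose_step, ih, Finset.sum_range_succ']
    rw [add_comm]
    congr 1
    · by_cases h : w ≤ T
      · rw [Nat.ble_eq_true_of_le h, cond_true]
        refine Finset.sum_congr rfl fun i _ => ?_
        have e : (i + 1) * w = i * w + w := by ring
        rw [show q + 1 + i = q + (i + 1) by omega, e, Nat.sub_sub, add_comm w (i * w)]
        by_cases h2 : i * w ≤ T - w
        · rw [if_pos h2, if_pos (by omega)]
        · rw [if_neg h2, if_neg (by omega)]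
      · have : Nat.ble w T = false := by
          rw [← Bool.not_eq_true]
          exact fun h' => h (Nat.le_of_ble_eq_true h')
        rw [this, cond_false]
        refine (Finset.sum_eq_zero fun i _ => ?_).symm
        rw [if_neg]
        have e : (i + 1) * w = i * w + w := by ring
        rw [e]
        have := Nat.zero_le (i * w)
        omega
    · simp

theorem inner_eq_zero (f : ℕ → ℕ) (w N fuel T : ℕ) :
    inner f w N fuel 0 1 T = ∑ i ∈ Finset.range fuel, if i * w ≤ T then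
      (N + i - 1).choose i * f (T - i * w) else 0 := by
  have h := inner_eq f w N fuel 0 T
  simp only [Nat.choose_zero_right, zero_add] at h
  exact h

theorem cnt_le (r : ℕ) : ∀ b J T, r + b ≤ J → cnt r b J T ≤ (smooth (2 ^ J) (2 ^ T)).card := by
  intro b
  induction b with
  | zero =>
    intro J T h
    rw [cnt]
    have h1 : 2 ^ min T r ≤ 2 ^ J := Nat.pow_le_pow_right (by norm_num) (by omega)
    refine (card_smooth_self_ge h1).trans (Finset.card_le_card (smooth_mono le_rfl ?_))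
    exact Nat.pow_le_pow_right (by norm_num) (by omega)
  | succ b ih =>
    intro J T h
    rw [cnt]
    rw [inner_eq_zero, ← Finset.sum_filter]
    have hJ : 1 ≤ J := by omega
    have hb := block (blk J) ((Finset.range (T + 1)).filter (fun i => i * J ≤ T)) (2 ^ (J - 1)) (2 ^ J)
      (2 ^ J) (2 ^ T) (fun q => 2 ^ (T - q * J)) ?_ ?_ ?_
    · refine le_trans (Finset.sum_le_sum fun i hi => ?_) hb
      refine Nat.mul_le_mul ?_ (ih (J - 1) _ (by omega))
      exact Nat.choose_le_choose _ (by have := Nw_le J; omega)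
    · intro p hp
      rw [blk, Finset.mem_filter, Finset.mem_Ioo] at hp
      exact ⟨hp.2, hp.1.1, hp.1.2.le, hp.1.2.le⟩
    · exact Nat.pow_le_pow_right (by norm_num) (by omega)
    · intro q hq
      have hq2 := (Finset.mem_filter.1 hq).2
      rw [← pow_mul, ← pow_add]
      refine Nat.pow_le_pow_right (by norm_num) ?_
      rw [mul_comm J q]
      omega

/-- The factorial in a form the kernel computes. -/
def chkRow (L : ℕ) (row : ℕ × ℕ × ℕ × ℕ × ℕ) : Bool :=
  Nat.ble (2 ^ L) (row.1 + 1)! &&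
  Nat.ble (row.1 * (2 ^ (L - 1) * (L + 3) + 2 ^ row.2.1 * (row.2.1 + 1))) ((2 ^ (L - 1)) ^ 2) &&
  Nat.ble (2 ^ row.2.2.1) (L ^ 2) &&
  Nat.ble (row.2.2.2.2 + row.2.2.2.1) row.2.2.1 &&
  Nat.ble (2 ^ L) (cnt row.2.2.2.2 row.2.2.2.1 row.2.2.1 row.2.1)

/-- What the table gives for the numbers with `L` binary digits. -/
def Good (L : ℕ) : Prop := ∃ a W X : ℕ, X < 2 ^ a ∧ 2 ^ L ≤ (W + 1)! ∧
  W * (2 ^ (L - 1) * (L + 3) + X * a) ≤ (2 ^ (L - 1)) ^ 2 ∧ 2 ^ L ≤ (smooth (L ^ 2) X).card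

theorem good_of_chk {L : ℕ} {row : ℕ × ℕ × ℕ × ℕ × ℕ} (h : chkRow L row = true) : Good L := by
  obtain ⟨W, T, J, b, r⟩ := row
  rw [chkRow, Bool.and_eq_true, Bool.and_eq_true, Bool.and_eq_true, Bool.and_eq_true] at h
  obtain ⟨⟨⟨⟨h1, h2⟩, h3⟩, h4⟩, h5⟩ := h
  replace h1 := Nat.le_of_ble_eq_true h1
  replace h2 := Nat.le_of_ble_eq_true h2
  replace h3 := Nat.le_of_ble_eq_true h3
  replace h4 := Nat.le_of_ble_eq_true h4
  replace h5 := Nat.le_of_ble_eq_true h5
  refine ⟨T + 1, W, 2 ^ T, Nat.pow_lt_pow_right (by norm_num) (by omega), h1, h2, ?_⟩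
  exact (h5.trans (cnt_le r b J T h4)).trans (Finset.card_le_card (smooth_mono h3 le_rfl))

/-- Checks the rows of a list, for consecutive values of `L`. -/
def chkAll : ℕ → List (ℕ × ℕ × ℕ × ℕ × ℕ) → Bool
  | _, [] => true
  | L, row :: l => chkRow L row && chkAll (L + 1) l

theorem good_of_chkAll : ∀ (l : List (ℕ × ℕ × ℕ × ℕ × ℕ)) (L : ℕ), chkAll L l = true →
    ∀ M, L ≤ M → M < L + l.length → Good M := by
  intro l
  induction l with
  | nil => intro L _ M h1 h2; simp at h2; omega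
  | cons row l ih =>
    intro L h M h1 h2
    rw [chkAll, Bool.and_eq_true] at h
    rcases Nat.eq_or_lt_of_le h1 with h3 | h3
    · exact h3 ▸ good_of_chk h.1
    · exact ih (L + 1) h.2 M h3 (by rw [List.length_cons] at h2; omega)

theorem table0 : chkAll 16 [(8, 22, 8, 4, 4), (8, 24, 8, 4, 4), (8, 26, 8, 3, 5), (9, 27, 8, 4, 4), (9, 29, 8, 4, 4), (9, 31, 8, 4, 4), (10, 33, 8, 4, 4), (10, 35, 9, 3, 6), (10, 37, 9, 3, 6), (10, 39, 9, 3, 6), (11, 41, 9, 2, 7), (11, 43, 9, 3, 6), (11, 45, 9, 3, 6), (12, 46, 9, 3, 6), (12, 48, 9, 3, 6), (12, 50, 9, 3, 6), (12, 52, 10, 2, 8), (13, 54, 10, 2, 8), (13, 56, 10, 2, 8), (13, 58, 10, 2, 8), (13, 60, 10, 2, 8), (14, 62, 10, 2, 8), (14, 64, 10, 2, 8), (14, 66, 10, 2, 8), (14, 68, 10, 2, 8), (15, 69, 10, 3, 7), (15, 71, 10, 3, 7), (15, 73, 10, 3, 7), (15, 75, 10, 3, 7), (16, 77, 10, 3, 7)] = true := by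
  decide +kernel

theorem table1 : chkAll 46 [(16, 79, 11, 2, 9), (16, 81, 11, 2, 9), (16, 83, 11, 2, 9), (17, 85, 11, 2, 9), (17, 87, 11, 2, 9), (17, 89, 11, 2, 9), (17, 91, 11, 2, 9), (18, 93, 11, 2, 9), (18, 95, 11, 2, 9), (18, 97, 11, 2, 9), (18, 99, 11, 2, 9), (19, 101, 11, 2, 9), (19, 103, 11, 2, 9), (19, 105, 11, 2, 9), (19, 106, 11, 2, 9), (19, 108, 11, 3, 8), (20, 110, 11, 3, 8), (20, 112, 11, 3, 8), (20, 114, 12, 2, 10), (20, 116, 12, 2, 10), (21, 118, 12, 2, 10), (21, 120, 12, 2, 10), (21, 122, 12, 2, 10), (21, 124, 12, 2, 10), (22, 126, 12, 2, 10), (22, 128, 12, 2, 10), (22, 130, 12, 2, 10), (22, 132, 12, 2, 10), (22, 134, 12, 2, 10), (23, 136, 12, 2, 10)] = true := by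
  decide +kernel

theorem table2 : chkAll 76 [(23, 138, 12, 2, 10), (23, 140, 12, 2, 10), (23, 142, 12, 2, 10), (23, 144, 12, 2, 10), (24, 146, 12, 2, 10), (24, 148, 12, 2, 10), (24, 150, 12, 2, 10), (24, 152, 12, 2, 10), (25, 154, 12, 2, 10), (25, 156, 12, 2, 10), (25, 158, 12, 2, 10), (25, 160, 12, 2, 10), (25, 162, 12, 2, 10), (26, 163, 12, 2, 10), (26, 165, 12, 2, 10), (26, 167, 13, 2, 11), (26, 169, 13, 2, 11), (26, 171, 13, 2, 11), (27, 173, 13, 2, 11), (27, 175, 13, 2, 11), (27, 177, 13, 2, 11), (27, 179, 13, 2, 11), (28, 181, 13, 2, 11), (28, 183, 13, 2, 11), (28, 185, 13, 2, 11), (28, 187, 13, 2, 11), (28, 189, 13, 2, 11), (29, 191, 13, 2, 11), (29, 193, 13, 2, 11), (29, 195, 13, 2, 11)] = true := by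
  decide +kernel

theorem table3 : chkAll 106 [(29, 197, 13, 2, 11), (29, 199, 13, 2, 11), (30, 201, 13, 2, 11), (30, 203, 13, 2, 11), (30, 205, 13, 2, 11), (30, 207, 13, 2, 11), (30, 209, 13, 2, 11), (31, 211, 13, 2, 11), (31, 213, 13, 2, 11), (31, 215, 13, 2, 11), (31, 217, 13, 2, 11), (31, 219, 13, 2, 11), (32, 221, 13, 2, 11), (32, 223, 13, 2, 11), (32, 225, 13, 2, 11), (32, 227, 13, 2, 11), (32, 229, 13, 2, 11), (33, 231, 13, 2, 11), (33, 233, 13, 2, 11), (33, 235, 13, 2, 11), (33, 237, 13, 2, 11), (33, 239, 13, 2, 11), (34, 240, 14, 2, 12), (34, 242, 14, 2, 12), (34, 244, 14, 2, 12), (34, 246, 14, 2, 12), (34, 248, 14, 2, 12), (35, 250, 14, 2, 12), (35, 252, 14, 2, 12), (35, 254, 14, 2, 12)] = true := by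
  decide +kernel

theorem table4 : chkAll 136 [(35, 256, 14, 2, 12), (35, 258, 14, 2, 12), (35, 260, 14, 2, 12), (36, 262, 14, 2, 12), (36, 264, 14, 2, 12), (36, 266, 14, 2, 12), (36, 268, 14, 2, 12), (36, 270, 14, 2, 12), (37, 272, 14, 2, 12), (37, 274, 14, 2, 12), (37, 276, 14, 2, 12), (37, 278, 14, 2, 12), (37, 280, 14, 2, 12), (38, 282, 14, 2, 12), (38, 284, 14, 2, 12), (38, 286, 14, 2, 12), (38, 288, 14, 2, 12), (38, 290, 14, 2, 12), (39, 292, 14, 2, 12), (39, 294, 14, 2, 12), (39, 296, 14, 2, 12), (39, 298, 14, 2, 12), (39, 300, 14, 2, 12), (39, 302, 14, 2, 12), (40, 304, 14, 2, 12), (40, 306, 14, 2, 12), (40, 308, 14, 2, 12), (40, 310, 14, 2, 12), (40, 312, 14, 2, 12), (41, 314, 14, 2, 12)] = true := by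
  decide +kernel

theorem table5 : chkAll 166 [(41, 316, 14, 2, 12), (41, 318, 14, 2, 12), (41, 320, 14, 2, 12), (41, 322, 14, 2, 12), (42, 324, 14, 2, 12), (42, 326, 14, 2, 12), (42, 328, 14, 2, 12), (42, 330, 14, 2, 12), (42, 332, 14, 2, 12), (42, 334, 14, 2, 12), (43, 336, 14, 2, 12), (43, 338, 14, 2, 12), (43, 340, 14, 2, 12), (43, 342, 14, 2, 12), (43, 344, 14, 2, 12), (44, 346, 14, 2, 12), (44, 348, 15, 2, 13), (44, 350, 15, 2, 13), (44, 352, 15, 2, 13), (44, 354, 15, 2, 13), (44, 356, 15, 2, 13), (45, 358, 15, 2, 13), (45, 360, 15, 2, 13), (45, 362, 15, 2, 13), (45, 363, 15, 2, 13), (45, 365, 15, 2, 13), (46, 367, 15, 2, 13), (46, 369, 15, 2, 13), (46, 371, 15, 2, 13), (46, 373, 15, 2, 13)] = true := by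
  decide +kernel

theorem table6 : chkAll 196 [(46, 375, 15, 2, 13), (46, 377, 15, 2, 13), (47, 379, 15, 2, 13), (47, 381, 15, 2, 13), (47, 383, 15, 2, 13), (47, 385, 15, 2, 13), (47, 387, 15, 2, 13), (48, 389, 15, 2, 13), (48, 391, 15, 2, 13), (48, 393, 15, 2, 13), (48, 395, 15, 2, 13), (48, 397, 15, 2, 13), (48, 399, 15, 2, 13), (49, 401, 15, 2, 13), (49, 403, 15, 2, 13), (49, 405, 15, 2, 13), (49, 407, 15, 2, 13), (49, 409, 15, 2, 13), (49, 411, 15, 2, 13), (50, 413, 15, 2, 13), (50, 415, 15, 2, 13), (50, 417, 15, 2, 13), (50, 419, 15, 2, 13), (50, 421, 15, 2, 13), (51, 423, 15, 2, 13), (51, 425, 15, 2, 13), (51, 427, 15, 2, 13), (51, 429, 15, 2, 13), (51, 431, 15, 2, 13), (51, 433, 15, 2, 13)] = true := by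
  decide +kernel

theorem table7 : chkAll 226 [(52, 435, 15, 2, 13), (52, 437, 15, 2, 13), (52, 439, 15, 2, 13)] = true := by
  decide +kernel

theorem good_small {L : ℕ} (h1 : 16 ≤ L) (h2 : L ≤ 228) : Good L := by
  rcases Nat.lt_or_ge L 46 with h | h
  · exact good_of_chkAll _ 16 table0 L (by omega) (by simp only [List.length_cons, List.length_nil]; omega)
  rcases Nat.lt_or_ge L 76 with h | h
  · exact good_of_chkAll _ 46 table1 L (by omega) (by simp only [List.length_cons, List.length_nil]; omega)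
  rcases Nat.lt_or_ge L 106 with h | h
  · exact good_of_chkAll _ 76 table2 L (by omega) (by simp only [List.length_cons, List.length_nil]; omega)
  rcases Nat.lt_or_ge L 136 with h | h
  · exact good_of_chkAll _ 106 table3 L (by omega) (by simp only [List.length_cons, List.length_nil]; omega)
  rcases Nat.lt_or_ge L 166 with h | h
  · exact good_of_chkAll _ 136 table4 L (by omega) (by simp only [List.length_cons, List.length_nil]; omega)
  rcases Nat.lt_or_ge L 196 with h | h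
  · exact good_of_chkAll _ 166 table5 L (by omega) (by simp only [List.length_cons, List.length_nil]; omega)
  rcases Nat.lt_or_ge L 226 with h | h
  · exact good_of_chkAll _ 196 table6 L (by omega) (by simp only [List.length_cons, List.length_nil]; omega)
  rcases Nat.lt_or_ge L 229 with h | h
  · exact good_of_chkAll _ 226 table7 L (by omega) (by simp only [List.length_cons, List.length_nil]; omega)
  omega

end Pool.Agent.Lib.MP_32a6f5_nt
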