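import Mathlib
import Pool.Agent.Lib.MP_32a6f5_nt.Table

/-! The numbers with at least `229` binary digits, through the bound of Chebyshev for the number
of primes. -/

namespace Pool.Agent.Lib.MP_32a6f5_nt

open Finset Nat

theorem two_pow_le_primesLE (n : ℕ) (hn : n ≠ 0) : 2 ^ n ≤ (n + 1) * n ^ (primesLE n).card := by
  refine (Chebyshev.two_pow_le_mul_lcmUpto n).trans (Nat.mul_le_mul_left _ ?_)
  rw [Nat.lcmUpto_eq_prod_pow_log]
  calc ∏ p ∈ primesLE n, p ^ p.log n ≤ ∏ _p ∈ primesLE n, n :=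
        Finset.prod_le_prod' fun p _ => Nat.pow_log_le_self p hn
    _ = n ^ (primesLE n).card := by rw [Finset.prod_const]

/-- Chebyshev: if `L ^ s ≤ 2 ^ (L - 1)` there are at least `s L / 2` primes up to `L ^ 2`. -/
theorem primes_sq_ge {L s : ℕ} (hL : 2 ≤ L) (h : L ^ s ≤ 2 ^ (L - 1)) :
    s * L ≤ 2 * (primesLE (L ^ 2)).card := by
  by_contra hlt
  push Not at hlt
  set N := (primesLE (L ^ 2)).card with hN
  have h1 := two_pow_le_primesLE (L ^ 2) (by positivity)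
  rw [← hN, ← pow_mul] at h1
  -- multiply by `L`
  have h2 : L * L ^ (2 * N) ≤ L ^ (s * L) := by
    rw [← pow_succ']
    exact Nat.pow_le_pow_right (by omega) (by omega)
  have h3 : L ^ (s * L) ≤ 2 ^ ((L - 1) * L) := by
    rw [pow_mul, pow_mul]
    exact Nat.pow_le_pow_left h L
  have h4 : L * 2 ^ (L ^ 2) ≤ (L ^ 2 + 1) * 2 ^ ((L - 1) * L) := by
    calc L * 2 ^ (L ^ 2) ≤ L * ((L ^ 2 + 1) * L ^ (2 * N)) := Nat.mul_le_mul_left _ h1
      _ = (L ^ 2 + 1) * (L * L ^ (2 * N)) := by ring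
      _ ≤ (L ^ 2 + 1) * 2 ^ ((L - 1) * L) := Nat.mul_le_mul_left _ (h2.trans h3)
  have h5 : L ^ 2 = (L - 1) * L + L := by
    obtain ⟨m, rfl⟩ : ∃ m, L = m + 1 := ⟨L - 1, by omega⟩
    rw [Nat.add_sub_cancel]; ring
  have h6 : L * 2 ^ L ≤ L ^ 2 + 1 := by
    have : L * 2 ^ L * 2 ^ ((L - 1) * L) ≤ (L ^ 2 + 1) * 2 ^ ((L - 1) * L) := by
      calc L * 2 ^ L * 2 ^ ((L - 1) * L) = L * 2 ^ (L ^ 2) := by
            conv_rhs => rw [h5, pow_add]
            ring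
        _ ≤ _ := h4
    exact Nat.le_of_mul_le_mul_right this (by positivity)
  have h7 : L + 1 ≤ 2 ^ L := Nat.lt_two_pow_self
  nlinarith

theorem primes_le_half {ρ : ℕ} : (primesLE ρ).card ≤ (ρ + 1) / 2 := by
  have : ((primesLE ρ).image (fun p => (p + 1) / 2)) ⊆ Finset.Icc 1 ((ρ + 1) / 2) := by
    intro m hm
    obtain ⟨p, hp, rfl⟩ := Finset.mem_image.1 hm
    have h1 := Nat.le_of_mem_primesLE hp
    have h2 := Nat.two_le_of_mem_primesLE hp
    rw [Finset.mem_Icc]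
    omega
  have h2 := Finset.card_le_card this
  rw [Finset.card_image_of_injOn, Nat.card_Icc, Nat.add_sub_cancel] at h2
  · exact h2
  · intro p hp q hq hpq
    have h1 := Nat.prime_of_mem_primesLE (Finset.mem_coe.1 hp)
    have h2 := Nat.prime_of_mem_primesLE (Finset.mem_coe.1 hq)
    simp only at hpq
    rcases h1.eq_two_or_odd with e1 | e1 <;> rcases h2.eq_two_or_odd with e2 | e2
    · omega
    · have := h2.two_le; omega
    · have := h1.two_le; omega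
    · omega

/-- The primes between `ρ` and `L ^ 2`. -/
def mid (L ρ : ℕ) : Finset ℕ := (Finset.Ioc ρ (L ^ 2)).filter Nat.Prime

theorem mid_card (L ρ : ℕ) : (primesLE (L ^ 2)).card ≤ (mid L ρ).card + (ρ + 1) / 2 := by
  have : primesLE (L ^ 2) ⊆ mid L ρ ∪ primesLE ρ := by
    intro p hp
    rw [Nat.mem_primesLE] at hp
    rw [Finset.mem_union, mid, Finset.mem_filter, Finset.mem_Ioc, Nat.mem_primesLE]
    rcases Nat.lt_or_ge ρ p with h | h
    · exact Or.inl ⟨⟨h, hp.1⟩, hp.2⟩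
    · exact Or.inr ⟨h, hp.2⟩
  exact (Finset.card_le_card this).trans ((Finset.card_union_le _ _).trans
    (Nat.add_le_add_left primes_le_half _))

theorem pow_le_factorial {n : ℕ} (hn : 41 ≤ n) : 16 ^ n ≤ n ! := by
  induction n, hn using Nat.le_induction with
  | base => decide +kernel
  | succ n hn ih =>
    rw [pow_succ', Nat.factorial_succ]
    exact Nat.mul_le_mul (by omega) ih

/-- The criterion for large `L`. -/
theorem good_of_large {L t ρ N : ℕ} (hL : 229 ≤ L) (h1 : L ^ (t + 1) * ρ ≤ 2 ^ (L - 1)) (hρ0 : 1 ≤ ρ)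
    (hρ : ρ < L) (hN : N ≤ (mid L ρ).card) (hbin : 2 ^ L ≤ (N + t - 1).choose t * ρ) : Good L := by
  have hL1 : 2 * 2 ^ (L - 1) = 2 ^ L := by rw [← pow_succ']; congr 1; omega
  set κ := 2 ^ (L - 1) with hκ
  have hXL : (L ^ 2) ^ t * ρ * L ^ 2 ≤ κ ^ 2 := by
    calc (L ^ 2) ^ t * ρ * L ^ 2 ≤ (L ^ 2) ^ t * ρ * L ^ 2 * ρ := Nat.le_mul_of_pos_right _ hρ0
      _ = (L ^ (t + 1) * ρ) ^ 2 := by ring
      _ ≤ κ ^ 2 := Nat.pow_le_pow_left h1 2
  have hLk : L * (L + 3) ≤ 2 ^ L := by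
    have : ∀ n : ℕ, 6 ≤ n → n * (n + 3) ≤ 2 ^ n := by
      intro n hn
      induction n, hn using Nat.le_induction with
      | base => norm_num
      | succ n hn ih => rw [pow_succ]; nlinarith
    exact this L (by omega)
  refine ⟨2 * (L - 1), L / 4, (L ^ 2) ^ t * ρ, ?_, ?_, ?_, ?_⟩
  · have h2 : 0 < (L ^ 2) ^ t * ρ := Nat.mul_pos (by positivity) hρ0
    have h3 : (L ^ 2) ^ t * ρ * 1 < (L ^ 2) ^ t * ρ * L ^ 2 := by
      refine Nat.mul_lt_mul_of_pos_left ?_ h2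
      nlinarith
    rw [mul_comm 2 (L - 1), pow_mul, ← hκ]
    omega
  · calc 2 ^ L ≤ 2 ^ (4 * (L / 4 + 1)) := Nat.pow_le_pow_right (by norm_num) (by omega)
      _ = 16 ^ (L / 4 + 1) := by rw [pow_mul]; norm_num
      _ ≤ (L / 4 + 1)! := pow_le_factorial (by omega)
  · set X := (L ^ 2) ^ t * ρ with hX
    have h4 : 4 * (L / 4) ≤ L := Nat.mul_div_le L 4
    have h5 : 4 * (L / 4 * (κ * (L + 3) + X * (2 * (L - 1)))) ≤ 4 * κ ^ 2 := by
      calc 4 * (L / 4 * (κ * (L + 3) + X * (2 * (L - 1))))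
          = 4 * (L / 4) * (κ * (L + 3) + X * (2 * (L - 1))) := by ring
        _ ≤ L * (κ * (L + 3) + X * (2 * (L - 1))) := Nat.mul_le_mul_right _ h4
        _ ≤ L * (κ * (L + 3) + X * (2 * L)) := by
            refine Nat.mul_le_mul_left _ (Nat.add_le_add_left (Nat.mul_le_mul_left _ ?_) _)
            omega
        _ = κ * (L * (L + 3)) + 2 * (X * L ^ 2) := by ring
        _ ≤ κ * 2 ^ L + 2 * κ ^ 2 :=
            Nat.add_le_add (Nat.mul_le_mul_left _ hLk) (Nat.mul_le_mul_left _ hXL)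
        _ = 4 * κ ^ 2 := by rw [← hL1]; ring
    exact Nat.le_of_mul_le_mul_left h5 (by norm_num)
  · have hρL : ρ ≤ L ^ 2 := by nlinarith
    have hb := block (mid L ρ) {t} ρ (L ^ 2) (L ^ 2) ((L ^ 2) ^ t * ρ) (fun _ => ρ) ?_ hρL ?_
    · rw [Finset.sum_singleton] at hb
      refine hbin.trans (le_trans (Nat.mul_le_mul ?_ (card_smooth_self_ge le_rfl)) hb)
      exact Nat.choose_le_choose _ (by omega)
    · intro p hp
      rw [mid, Finset.mem_filter, Finset.mem_Ioc] at hp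
      exact ⟨hp.2, hp.1.1, hp.1.2, hp.1.2⟩
    · intro q hq
      rw [Finset.mem_singleton] at hq
      subst hq
      exact le_rfl

/-- The binomial coefficient `binom (N + q + j - 1, q + j)` from `c = binom (N + q - 1, q)`. -/
def bin (N : ℕ) : ℕ → ℕ → ℕ → ℕ
  | 0, _, c => c
  | j + 1, q, c => bin N j (q + 1) (c * (N + q) / (q + 1))

theorem bin_eq (N : ℕ) : ∀ j q, bin N j q ((N + q - 1).choose q) = (N + (q + j) - 1).choose (q + j) := by
  intro j
  induction j with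
  | zero => intro q; rfl
  | succ j ih =>
    intro q
    rw [bin, choose_step, ih, show q + 1 + j = q + (j + 1) by omega]

theorem bin_zero (N t : ℕ) : bin N t 0 1 = (N + t - 1).choose t := by
  have h := bin_eq N t 0
  simpa using h

/-- The check for one value `L`, with `t + 1 = s`. -/
def chkL (L t : ℕ) : Bool :=
  Nat.ble (L ^ (t + 1)) (2 ^ (L - 1)) && Nat.ble (2 ^ (L - 1) + 1) (L ^ (t + 2)) &&
  Nat.ble (2 ^ L) (bin (((t + 1) * L + 1) / 2 - (2 ^ (L - 1) / L ^ (t + 1) + 1) / 2) t 0 1 *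
    (2 ^ (L - 1) / L ^ (t + 1)))

theorem good_of_chkL {L t : ℕ} (hL : 229 ≤ L) (h : chkL L t = true) : Good L := by
  rw [chkL, Bool.and_eq_true, Bool.and_eq_true] at h
  obtain ⟨⟨h1, h2⟩, h3⟩ := h
  replace h1 := Nat.le_of_ble_eq_true h1
  replace h2 := Nat.le_of_ble_eq_true h2
  replace h3 := Nat.le_of_ble_eq_true h3
  have hpos : 0 < L ^ (t + 1) := by positivity
  have hρ : 2 ^ (L - 1) / L ^ (t + 1) < L := by
    rw [Nat.div_lt_iff_lt_mul hpos]
    calc 2 ^ (L - 1) < L ^ (t + 2) := h2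
      _ = L * L ^ (t + 1) := by ring
  refine good_of_large hL (Nat.mul_div_le _ _) ((Nat.one_le_div_iff hpos).2 h1) hρ ?_
    (le_of_le_of_eq h3 (by rw [bin_zero]))
  have h4 := primes_sq_ge (by omega : 2 ≤ L) h1
  have h5 := mid_card L (2 ^ (L - 1) / L ^ (t + 1))
  omega

/-- Checks the rows of a list, for consecutive values of `L`. -/
def chkAllL : ℕ → List ℕ → Bool
  | _, [] => true
  | L, t :: l => chkL L t && chkAllL (L + 1) l

theorem good_of_chkAllL : ∀ (l : List ℕ) (L : ℕ), 229 ≤ L → chkAllL L l = true →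
    ∀ M, L ≤ M → M < L + l.length → Good M := by
  intro l
  induction l with
  | nil => intro L _ _ M h1 h2; simp at h2; omega
  | cons row l ih =>
    intro L hL h M h1 h2
    rw [chkAllL, Bool.and_eq_true] at h
    rcases Nat.eq_or_lt_of_le h1 with h3 | h3
    · exact h3 ▸ good_of_chkL hL h.1
    · exact ih (L + 1) (by omega) h.2 M h3 (by rw [List.length_cons] at h2; omega)

/-- The exponents for `229 ≤ L < 512`. -/
def midList : List ℕ := [28, 28, 28, 28, 28, 28, 28, 28, 28, 29, 29, 29, 29, 29, 29, 29, 29, 29, 29, 30, 30, 30, 30, 30, 30, 30, 30, 30, 30, 31, 31, 31, 31, 31, 31, 31, 31, 31, 31, 32, 32, 32, 32, 32, 32, 32, 32, 32, 33, 33, 33, 33, 33, 33, 33, 33, 33, 33, 34, 34, 34, 34, 34, 34, 34, 34, 34, 34, 35, 35, 35, 35, 35, 35, 35, 35, 35, 35, 36, 36, 36, 36, 36, 36, 36, 36, 36, 36, 37, 37, 37, 37, 37, 37, 37, 37, 37, 37, 38, 38, 38, 38, 38, 38, 38, 38, 38, 38, 39, 39, 39, 39, 39, 39, 39, 39,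 39, 39, 40, 40, 40, 40, 40, 40, 40, 40, 40, 40, 40, 41, 41, 41, 41, 41, 41, 41, 41, 41, 41, 42, 42, 42, 42, 42, 42, 42, 42, 42, 42, 43, 43, 43, 43, 43, 43, 43, 43, 43, 43, 44, 44, 44, 44, 44, 44, 44, 44, 44, 44, 44, 45, 45, 45, 45, 45, 45, 45, 45, 45, 45, 46, 46, 46, 46, 46, 46, 46, 46, 46, 46, 46, 47, 47, 47, 47, 47, 47, 47, 47, 47, 47, 48, 48, 48, 48, 48, 48, 48, 48, 48, 48, 48, 49, 49, 49, 49, 49, 49, 49, 49, 49, 49, 50, 50, 50, 50, 50, 50, 50, 50, 50, 50, 50, 51, 51, 51, 51, 51, 51, 51, 51, 51, 51, 52, 52, 52, 52, 52, 52, 52, 52, 52, 52, 52, 53, 53, 53, 53, 53, 53, 53, 53, 53, 53, 54, 54, 54, 54, 54, 54, 54, 54, 54, 54, 54, 55, 55, 55, 55, 55, 55, 55, 55]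

theorem midList_length : midList.length = 283 := by decide +kernel

theorem table_mid : chkAllL 229 midList = true := by
  decide +kernel

theorem good_mid {L : ℕ} (h1 : 229 ≤ L) (h2 : L < 512) : Good L :=
  good_of_chkAllL midList 229 le_rfl table_mid L h1 (by rw [midList_length]; omega)

theorem bernoulli {t : ℕ} (ht : 4 ≤ t) : 32 * (t ^ t) ^ 4 ≤ ((t + 1) ^ t) ^ 4 := by
  have ht0 : (0 : ℝ) < t := by exact_mod_cast (by omega : 0 < t)
  have ht4 : (4 : ℝ) ≤ t := by exact_mod_cast ht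
  have h1 : (5 / 4 : ℝ) ≤ (1 + 1 / (t : ℝ)) ^ ((t : ℝ) / 4) := by
    have h := one_add_mul_self_le_rpow_one_add (s := 1 / (t : ℝ)) (by
      have : 0 < 1 / (t : ℝ) := by positivity
      linarith) (p := (t : ℝ) / 4) (by linarith)
    have e : 1 + (t : ℝ) / 4 * (1 / (t : ℝ)) = 5 / 4 := by field_simp; norm_num
    rwa [e] at h
  have h2 : (5 / 4 : ℝ) ^ 16 ≤ ((1 + 1 / (t : ℝ)) ^ ((t : ℝ) / 4)) ^ 16 :=
    pow_le_pow_left₀ (by norm_num) h1 16
  have hb : (0 : ℝ) ≤ 1 + 1 / (t : ℝ) := by positivity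
  have h3 : ((1 + 1 / (t : ℝ)) ^ ((t : ℝ) / 4)) ^ 16 = (1 + 1 / (t : ℝ)) ^ (t * 4) := by
    rw [← Real.rpow_natCast, ← Real.rpow_mul hb, ← Real.rpow_natCast]
    congr 1
    push_cast
    ring
  rw [h3] at h2
  have h4 : (32 : ℝ) ≤ (1 + 1 / (t : ℝ)) ^ (t * 4) := by
    refine le_trans ?_ h2
    norm_num
  have h5 : (32 : ℝ) * ((t : ℝ) ^ t) ^ 4 ≤ (((t : ℝ) + 1) ^ t) ^ 4 := by
    have e : (((t : ℝ) + 1) ^ t) ^ 4 = (1 + 1 / (t : ℝ)) ^ (t * 4) * ((t : ℝ) ^ t) ^ 4 := by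
      rw [← pow_mul, ← pow_mul, ← mul_pow]
      congr 1
      field_simp
    rw [e]
    exact mul_le_mul_of_nonneg_right h4 (by positivity)
  exact_mod_cast h5

theorem fact_bound {t : ℕ} (ht : 20 ≤ t) : (2 ^ t * t !) ^ 4 * 2 ^ t ≤ (t ^ t) ^ 4 := by
  induction t, ht using Nat.le_induction with
  | base => decide +kernel
  | succ t ht ih =>
    have hb := bernoulli (by omega : 4 ≤ t)
    calc (2 ^ (t + 1) * (t + 1)!) ^ 4 * 2 ^ (t + 1)
        = 32 * (t + 1) ^ 4 * ((2 ^ t * t !) ^ 4 * 2 ^ t) := by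
          rw [Nat.factorial_succ]; ring
      _ ≤ 32 * (t + 1) ^ 4 * (t ^ t) ^ 4 := Nat.mul_le_mul_left _ ih
      _ = (t + 1) ^ 4 * (32 * (t ^ t) ^ 4) := by ring
      _ ≤ (t + 1) ^ 4 * ((t + 1) ^ t) ^ 4 := Nat.mul_le_mul_left _ hb
      _ = ((t + 1) ^ (t + 1)) ^ 4 := by ring

theorem poly_lt {j : ℕ} (hj : 9 ≤ j) : (j + 1) * (4 * j + 13) < 2 ^ j := by
  induction j, hj using Nat.le_induction with
  | base => norm_num
  | succ j hj ih => rw [pow_succ]; nlinarith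

theorem good_big {L : ℕ} (hL : 512 ≤ L) : Good L := by
  have hL1 : 2 * 2 ^ (L - 1) = 2 ^ L := by rw [← pow_succ']; congr 1; omega
  have hne : 2 ^ (L - 1) ≠ 0 := by positivity
  set s := Nat.log L (2 ^ (L - 1)) with hs
  have h1 : L ^ s ≤ 2 ^ (L - 1) := Nat.pow_log_le_self L hne
  have h2 : 2 ^ (L - 1) < L ^ (s + 1) := Nat.lt_pow_succ_log_self (by omega) _
  set j := Nat.log 2 L with hj
  have h3 : 2 ^ j ≤ L := Nat.pow_log_le_self 2 (by omega)
  have h4 : L < 2 ^ (j + 1) := Nat.lt_pow_succ_log_self (by norm_num) _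
  have h5 : 9 ≤ j := by
    by_contra hlt
    have : 2 ^ (j + 1) ≤ 2 ^ 9 := Nat.pow_le_pow_right (by norm_num) (by omega)
    omega
  have h6 : 2 ^ j ≤ (j + 1) * (s + 1) := by
    have h7 : 2 ^ (L - 1) < 2 ^ ((j + 1) * (s + 1)) := by
      calc 2 ^ (L - 1) < L ^ (s + 1) := h2
        _ ≤ (2 ^ (j + 1)) ^ (s + 1) := Nat.pow_le_pow_left h4.le _
        _ = _ := by rw [← pow_mul]
    have h8 := (Nat.pow_lt_pow_iff_right (by norm_num)).1 h7
    omega
  have h9 : 4 * (j + 3) + 1 ≤ s := by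
    by_contra hlt
    push Not at hlt
    have h10 : (j + 1) * (s + 1) ≤ (j + 1) * (4 * j + 13) := Nat.mul_le_mul_left _ (by omega)
    have := poly_lt h5
    omega
  obtain ⟨t, ht⟩ : ∃ t, s = t + 1 := ⟨s - 1, by omega⟩
  rw [ht] at h1 h2 h9
  have hpos : 0 < L ^ (t + 1) := by positivity
  set ρ := 2 ^ (L - 1) / L ^ (t + 1) with hρ
  have hρ1 : 1 ≤ ρ := (Nat.one_le_div_iff hpos).2 h1
  have hρL : ρ < L := by
    rw [hρ, Nat.div_lt_iff_lt_mul hpos]
    calc 2 ^ (L - 1) < L ^ (t + 1 + 1) := h2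
      _ = L * L ^ (t + 1) := by ring
  have hρ2 : 2 ^ (L - 1) < (ρ + 1) * L ^ (t + 1) := by
    rw [mul_comm]
    exact Nat.lt_mul_div_succ _ hpos
  refine good_of_large (t := t) (ρ := ρ) (N := (mid L ρ).card) (by omega) (Nat.mul_div_le _ _) hρ1 hρL
    le_rfl ?_
  have h11 := primes_sq_ge (by omega : 2 ≤ L) h1
  have h12 := mid_card L ρ
  set N := (mid L ρ).card with hN
  have h13 : t * L ≤ 2 * N := by
    have : (t + 1) * L = t * L + L := by ring
    omega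
  -- the binomial coefficient
  have h14 : N ^ t ≤ t ! * (N + t - 1).choose t := by
    calc N ^ t ≤ N.ascFactorial t := Nat.pow_succ_le_ascFactorial _ _
      _ = _ := Nat.ascFactorial_eq_factorial_mul_choose' _ _
  -- `4 L 2 ^ t t! ≤ t ^ t`
  have h15 : (4 * L) ^ 4 ≤ 2 ^ t := by
    calc (4 * L) ^ 4 ≤ (4 * 2 ^ (j + 1)) ^ 4 := Nat.pow_le_pow_left (Nat.mul_le_mul_left _ h4.le) _
      _ = 2 ^ (4 * (j + 3)) := by
          rw [show (4 : ℕ) * 2 ^ (j + 1) = 2 ^ (j + 3) by rw [pow_add, pow_add 2 j 3]; ring,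
            ← pow_mul, mul_comm]
      _ ≤ 2 ^ t := Nat.pow_le_pow_right (by norm_num) (by omega)
  have h16 : 4 * L * (2 ^ t * t !) ≤ t ^ t := by
    have : (4 * L * (2 ^ t * t !)) ^ 4 ≤ (t ^ t) ^ 4 := by
      calc (4 * L * (2 ^ t * t !)) ^ 4 = (2 ^ t * t !) ^ 4 * (4 * L) ^ 4 := by ring
        _ ≤ (2 ^ t * t !) ^ 4 * 2 ^ t := Nat.mul_le_mul_left _ h15
        _ ≤ (t ^ t) ^ 4 := fact_bound (by omega)
    exact (Nat.pow_le_pow_iff_left (by norm_num)).1 this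
  have h17 : 4 * L * L ^ t * (2 ^ t * t !) ≤ (2 ^ t * t !) * (N + t - 1).choose t := by
    calc 4 * L * L ^ t * (2 ^ t * t !) = (4 * L * (2 ^ t * t !)) * L ^ t := by ring
      _ ≤ t ^ t * L ^ t := Nat.mul_le_mul_right _ h16
      _ = (t * L) ^ t := by rw [mul_pow]
      _ ≤ (2 * N) ^ t := Nat.pow_le_pow_left h13 t
      _ = 2 ^ t * N ^ t := mul_pow _ _ _
      _ ≤ 2 ^ t * (t ! * (N + t - 1).choose t) := Nat.mul_le_mul_left _ h14
      _ = _ := by ring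
  have h18 : 4 * L * L ^ t ≤ (N + t - 1).choose t := by
    rw [mul_comm (2 ^ t * t !)] at h17
    exact Nat.le_of_mul_le_mul_right h17 (by positivity)
  calc 2 ^ L = 2 * 2 ^ (L - 1) := hL1.symm
    _ ≤ 2 * ((ρ + 1) * L ^ (t + 1)) := Nat.mul_le_mul_left _ hρ2.le
    _ ≤ 2 * ((2 * ρ) * L ^ (t + 1)) :=
        Nat.mul_le_mul_left _ (Nat.mul_le_mul_right _ (by omega))
    _ = 4 * L * L ^ t * ρ := by ring
    _ ≤ (N + t - 1).choose t * ρ := Nat.mul_le_mul_right _ h18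

theorem good_all {L : ℕ} (hL : 16 ≤ L) : Good L := by
  rcases Nat.lt_or_ge L 229 with h | h
  · exact good_small hL (by omega)
  · rcases Nat.lt_or_ge L 512 with h2 | h2
    · exact good_mid h h2
    · exact good_big h2

end Pool.Agent.Lib.MP_32a6f5_nt
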