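import Mathlib

/-! The sum of the square roots of the divisors of `n` is at most `2.66 n^(2/3)`. -/

namespace Pool.Agent.Lib.MP_32a6f5_nt

open Finset

/-- The sum of the square roots of the divisors. -/
noncomputable def sqs (n : ℕ) : ℝ := ∑ d ∈ n.divisors, Real.sqrt d

theorem sqs_nonneg (n : ℕ) : 0 ≤ sqs n := Finset.sum_nonneg fun _ _ => Real.sqrt_nonneg _

theorem sqs_mul {m n : ℕ} (h : m.Coprime n) : sqs (m * n) = sqs m * sqs n := by
  have hinj := h.mul_injOn_divisors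
  unfold sqs
  rw [Nat.divisors_mul, Finset.mul_def, Finset.sum_image (by
      intro x hx y hy hxy
      exact hinj (by simpa using hx) (by simpa using hy) hxy), Finset.sum_mul_sum, Finset.sum_product]
  refine Finset.sum_congr rfl fun x _ => Finset.sum_congr rfl fun y _ => ?_
  push_cast
  rw [Real.sqrt_mul (Nat.cast_nonneg _)]

theorem sqs_one : sqs 1 = 1 := by simp [sqs]

theorem sqs_prime_pow {p : ℕ} (hp : p.Prime) (a : ℕ) :
    sqs (p ^ a) = ∑ i ∈ range (a + 1), Real.sqrt p ^ i := by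
  unfold sqs
  rw [Nat.divisors_prime_pow hp, Finset.sum_map]
  refine Finset.sum_congr rfl fun i _ => ?_
  simp only [Function.Embedding.coeFn_mk]
  push_cast
  rw [Real.sqrt_eq_rpow, Real.sqrt_eq_rpow, ← Real.rpow_natCast, ← Real.rpow_natCast,
    ← Real.rpow_mul (Nat.cast_nonneg _), ← Real.rpow_mul (Nat.cast_nonneg _)]
  ring_nf

theorem sqs_pow_succ {p : ℕ} (hp : p.Prime) (a : ℕ) :
    sqs (p ^ (a + 1)) = 1 + Real.sqrt p * sqs (p ^ a) := by
  rw [sqs_prime_pow hp, sqs_prime_pow hp, Finset.sum_range_succ', Finset.mul_sum]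
  simp only [pow_zero]
  rw [add_comm]
  congr 1
  exact Finset.sum_congr rfl fun i _ => by rw [pow_succ]; ring

/-- The induction for one prime: `r` plays the role of `p^(2/3)`. -/
theorem sqs_pow_le {p : ℕ} (hp : p.Prime) {C r : ℝ} (a0 : ℕ) (hC : 1 ≤ C) (hr : 1 ≤ r)
    (hbase : sqs (p ^ a0) ≤ C * r ^ a0) (hstep : 1 ≤ C * r ^ a0 * (r - Real.sqrt p))
    (hrp : Real.sqrt p ≤ r) :
    ∀ a, a0 ≤ a → sqs (p ^ a) ≤ C * r ^ a := by
  intro a ha
  induction a, ha using Nat.le_induction with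
  | base => exact hbase
  | succ a ha ih =>
    rw [sqs_pow_succ hp]
    have h1 : r ^ a0 ≤ r ^ a := pow_le_pow_right₀ hr ha
    have h2 : C * r ^ a0 * (r - Real.sqrt p) ≤ C * r ^ a * (r - Real.sqrt p) := by
      apply mul_le_mul_of_nonneg_right _ (by linarith)
      exact mul_le_mul_of_nonneg_left h1 (by linarith)
    have h3 : Real.sqrt p * sqs (p ^ a) ≤ Real.sqrt p * (C * r ^ a) :=
      mul_le_mul_of_nonneg_left ih (Real.sqrt_nonneg _)
    calc 1 + Real.sqrt p * sqs (p ^ a) ≤ C * r ^ a * (r - Real.sqrt p) + Real.sqrt p * (C * r ^ a) := by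
          linarith
      _ = C * r ^ (a + 1) := by ring

/-- Numerical lower bound for `x^(2/3)`. -/
theorem rpow_two_thirds_ge {x y : ℝ} (hx : 0 ≤ x) (hy : 0 ≤ y) (h : y ^ 3 ≤ x ^ 2) :
    y ≤ x ^ (2 / 3 : ℝ) := by
  have h1 : (y ^ 3) ^ (1 / 3 : ℝ) ≤ (x ^ 2) ^ (1 / 3 : ℝ) :=
    Real.rpow_le_rpow (by positivity) h (by norm_num)
  have h2 : (y ^ 3) ^ (1 / 3 : ℝ) = y := by
    rw [← Real.rpow_natCast, ← Real.rpow_mul hy]; norm_num
  have h3 : (x ^ 2) ^ (1 / 3 : ℝ) = x ^ (2 / 3 : ℝ) := by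
    rw [← Real.rpow_natCast, ← Real.rpow_mul hx]; norm_num
  rwa [h2, h3] at h1

theorem sqs_two_pow (a : ℕ) : sqs (2 ^ a) ≤ 1.811 * ((2 : ℝ) ^ (2 / 3 : ℝ)) ^ a := by
  have hr : (1.5874 : ℝ) ≤ (2 : ℝ) ^ (2 / 3 : ℝ) :=
    rpow_two_thirds_ge (by norm_num) (by norm_num) (by norm_num)
  have hs1 : Real.sqrt 2 ≤ 1.41422 := by
    rw [Real.sqrt_le_left (by norm_num)]; norm_num
  have hs0 : 0 ≤ Real.sqrt 2 := Real.sqrt_nonneg _
  set r := (2 : ℝ) ^ (2 / 3 : ℝ) with hrdef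
  have h0 : sqs (2 ^ 0) = 1 := by simp [sqs_one]
  have h1 : sqs (2 ^ 1) = 1 + Real.sqrt 2 := by
    rw [sqs_pow_succ Nat.prime_two, h0]; norm_num
  have h2 : sqs (2 ^ 2) = 1 + Real.sqrt 2 * (1 + Real.sqrt 2) := by
    rw [sqs_pow_succ Nat.prime_two, h1]; norm_num
  have h3 : sqs (2 ^ 3) = 1 + Real.sqrt 2 * (1 + Real.sqrt 2 * (1 + Real.sqrt 2)) := by
    rw [sqs_pow_succ Nat.prime_two, h2]; norm_num
  have hsq : Real.sqrt 2 * Real.sqrt 2 = 2 := Real.mul_self_sqrt (by norm_num)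
  have hr3 : r ^ 3 = 4 := by
    rw [hrdef, ← Real.rpow_natCast, ← Real.rpow_mul (by norm_num)]; norm_num
  have hr2 : (2.5198 : ℝ) ≤ r ^ 2 := by nlinarith
  rcases Nat.lt_or_ge a 3 with ha | ha
  · interval_cases a
    · rw [h0]; norm_num
    · rw [h1]; nlinarith
    · rw [h2]; nlinarith
  · refine sqs_pow_le Nat.prime_two 3 (by norm_num) (by linarith) ?_ ?_ ?_ a ha
    · rw [h3, hr3]; nlinarith
    · rw [hr3]; push_cast; nlinarith
    · push_cast; linarith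

theorem sqs_three_pow (a : ℕ) : sqs (3 ^ a) ≤ 1.325 * ((3 : ℝ) ^ (2 / 3 : ℝ)) ^ a := by
  have hr : (2.08 : ℝ) ≤ (3 : ℝ) ^ (2 / 3 : ℝ) :=
    rpow_two_thirds_ge (by norm_num) (by norm_num) (by norm_num)
  have hs1 : Real.sqrt 3 ≤ 1.73206 := by
    rw [Real.sqrt_le_left (by norm_num)]; norm_num
  have hs0 : 0 ≤ Real.sqrt 3 := Real.sqrt_nonneg _
  set r := (3 : ℝ) ^ (2 / 3 : ℝ) with hrdef
  have h0 : sqs (3 ^ 0) = 1 := by simp [sqs_one]
  have h1 : sqs (3 ^ 1) = 1 + Real.sqrt 3 := by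
    rw [sqs_pow_succ Nat.prime_three, h0]; norm_num
  have h2 : sqs (3 ^ 2) = 1 + Real.sqrt 3 * (1 + Real.sqrt 3) := by
    rw [sqs_pow_succ Nat.prime_three, h1]; norm_num
  have hsq : Real.sqrt 3 * Real.sqrt 3 = 3 := Real.mul_self_sqrt (by norm_num)
  have hr2 : (4.3264 : ℝ) ≤ r ^ 2 := by nlinarith
  rcases Nat.lt_or_ge a 2 with ha | ha
  · interval_cases a
    · rw [h0]; norm_num
    · rw [h1]; nlinarith
  · refine sqs_pow_le Nat.prime_three 2 (by norm_num) (by linarith) ?_ ?_ ?_ a ha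
    · rw [h2]; nlinarith
    · push_cast
      have : (1.325 : ℝ) * 4.3264 * (2.08 - 1.73206) ≤ 1.325 * r ^ 2 * (r - Real.sqrt 3) := by
        apply mul_le_mul
        · linarith
        · linarith
        · norm_num
        · positivity
      linarith
    · push_cast; linarith

theorem sqs_five_pow (a : ℕ) : sqs (5 ^ a) ≤ 1.107 * ((5 : ℝ) ^ (2 / 3 : ℝ)) ^ a := by
  have hr : (2.924 : ℝ) ≤ (5 : ℝ) ^ (2 / 3 : ℝ) :=
    rpow_two_thirds_ge (by norm_num) (by norm_num) (by norm_num)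
  have hs1 : Real.sqrt 5 ≤ 2.23607 := by
    rw [Real.sqrt_le_left (by norm_num)]; norm_num
  have hs0 : 0 ≤ Real.sqrt 5 := Real.sqrt_nonneg _
  set r := (5 : ℝ) ^ (2 / 3 : ℝ) with hrdef
  have h0 : sqs (5 ^ 0) = 1 := by simp [sqs_one]
  have h1 : sqs (5 ^ 1) = 1 + Real.sqrt 5 := by
    rw [sqs_pow_succ Nat.prime_five, h0]; norm_num
  rcases Nat.lt_or_ge a 1 with ha | ha
  · interval_cases a
    rw [h0]; norm_num
  · refine sqs_pow_le Nat.prime_five 1 (by norm_num) (by linarith) ?_ ?_ ?_ a ha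
    · rw [h1]; nlinarith
    · push_cast
      have : (1.107 : ℝ) * 2.924 * (2.924 - 2.23607) ≤ 1.107 * r ^ 1 * (r - Real.sqrt 5) := by
        apply mul_le_mul
        · linarith
        · linarith
        · norm_num
        · positivity
      linarith
    · push_cast; linarith

theorem sqs_big_pow {p : ℕ} (hp : p.Prime) (h7 : 7 ≤ p) (a : ℕ) :
    sqs (p ^ a) ≤ ((p : ℝ) ^ (2 / 3 : ℝ)) ^ a := by
  have hp7 : (7 : ℝ) ≤ p := by exact_mod_cast h7
  have hp0 : (0 : ℝ) ≤ p := by linarith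
  -- x = p^(1/6)
  set x := (p : ℝ) ^ (1 / 6 : ℝ) with hx
  have hx0 : 0 ≤ x := by positivity
  have hx1 : (1.38 : ℝ) ≤ x := by
    have h1 : ((1.38 : ℝ) ^ 6) ^ (1 / 6 : ℝ) ≤ (p : ℝ) ^ (1 / 6 : ℝ) :=
      Real.rpow_le_rpow (by positivity) (by
        have : (1.38 : ℝ) ^ 6 ≤ 7 := by norm_num
        linarith) (by norm_num)
    have h2 : ((1.38 : ℝ) ^ 6) ^ (1 / 6 : ℝ) = 1.38 := by
      rw [← Real.rpow_natCast, ← Real.rpow_mul (by norm_num)]; norm_num
    rwa [h2] at h1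
  have hs : Real.sqrt p = x ^ 3 := by
    rw [Real.sqrt_eq_rpow, hx, ← Real.rpow_natCast, ← Real.rpow_mul hp0]; norm_num
  have hr : (p : ℝ) ^ (2 / 3 : ℝ) = x ^ 4 := by
    rw [hx, ← Real.rpow_natCast, ← Real.rpow_mul hp0]; norm_num
  have hkey : 1 ≤ x ^ 4 - x ^ 3 := by
    have : (0.38 : ℝ) * 1.38 ^ 3 ≤ (x - 1) * x ^ 3 := by
      apply mul_le_mul (by linarith) _ (by positivity) (by linarith)
      exact pow_le_pow_left₀ (by norm_num) hx1 3
    have h4 : (x - 1) * x ^ 3 = x ^ 4 - x ^ 3 := by ring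
    rw [h4] at this
    have h6 : (2.6457 : ℝ) ≤ x ^ 3 := by
      rw [← hs]
      apply Real.le_sqrt_of_sq_le
      norm_num
      linarith
    have h7 : (1.383 : ℝ) ≤ x := by
      by_contra hlt
      push Not at hlt
      have : x ^ 3 < 1.383 ^ 3 := pow_lt_pow_left₀ hlt hx0 (by norm_num)
      norm_num at this
      linarith
    nlinarith
  have := sqs_pow_le hp (C := 1) (r := x ^ 4) 0 le_rfl
    (by nlinarith [pow_nonneg hx0 3]) (by simp [sqs_one]) (by rw [hs]; simp; linarith)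
    (by rw [hs]; linarith) a (Nat.zero_le _)
  rw [hr]
  simpa using this

theorem sqs_coprime_thirty {m : ℕ} (hm : m ≠ 0) (h : ∀ p : ℕ, p.Prime → p ∣ m → 7 ≤ p) :
    sqs m ≤ (m : ℝ) ^ (2 / 3 : ℝ) := by
  induction m using Nat.recOnPosPrimePosCoprime with
  | zero => exact absurd rfl hm
  | one => simp [sqs_one]
  | prime_pow p n hp hn =>
    have := sqs_big_pow hp (h p hp (dvd_pow_self p (by omega))) n
    refine this.trans (le_of_eq ?_)
    push_cast
    rw [← Real.rpow_natCast, ← Real.rpow_natCast, ← Real.rpow_mul (Nat.cast_nonneg _),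
      ← Real.rpow_mul (Nat.cast_nonneg _), mul_comm]
  | coprime a b ha hb hab iha ihb =>
    rw [sqs_mul hab]
    push_cast
    rw [Real.mul_rpow (Nat.cast_nonneg _) (Nat.cast_nonneg _)]
    exact mul_le_mul (iha (by omega) fun p hp hd => h p hp (hd.mul_right _))
      (ihb (by omega) fun p hp hd => h p hp (hd.mul_left _)) (sqs_nonneg _)
      (Real.rpow_nonneg (Nat.cast_nonneg _) _)

/-- The main bound. -/
theorem sqs_le {n : ℕ} (hn : n ≠ 0) : sqs n ≤ 2.66 * (n : ℝ) ^ (2 / 3 : ℝ) := by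
  obtain ⟨a, m1, h1, e1⟩ := Nat.exists_eq_pow_mul_and_not_dvd hn 2 (by norm_num)
  have hm1 : m1 ≠ 0 := by rintro rfl; simp at h1
  obtain ⟨b, m2, h2, e2⟩ := Nat.exists_eq_pow_mul_and_not_dvd hm1 3 (by norm_num)
  have hm2 : m2 ≠ 0 := by rintro rfl; simp at h2
  obtain ⟨c, m3, h3, e3⟩ := Nat.exists_eq_pow_mul_and_not_dvd hm2 5 (by norm_num)
  have hm3 : m3 ≠ 0 := by rintro rfl; simp at h3
  have hd3 : ∀ p : ℕ, p.Prime → p ∣ m3 → 7 ≤ p := by
    intro p hp hd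
    have n2 : p ≠ 2 := by
      rintro rfl
      apply h1; rw [e2, e3]
      exact (hd.mul_left _).mul_left _
    have n3 : p ≠ 3 := by
      rintro rfl
      apply h2; rw [e3]
      exact hd.mul_left _
    have n5 : p ≠ 5 := by rintro rfl; exact h3 hd
    have := hp.two_le
    by_contra hlt
    have : p = 4 ∨ p = 6 := by omega
    rcases this with rfl | rfl
    · exact absurd hp (by norm_num)
    · exact absurd hp (by norm_num)
  have c3 : Nat.Coprime (5 ^ c) m3 :=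
    Nat.Coprime.pow_left _ ((Nat.Prime.coprime_iff_not_dvd Nat.prime_five).2 h3)
  have c2 : Nat.Coprime (3 ^ b) (5 ^ c * m3) := by
    rw [← e3]
    exact Nat.Coprime.pow_left _ ((Nat.Prime.coprime_iff_not_dvd Nat.prime_three).2 h2)
  have c1 : Nat.Coprime (2 ^ a) (3 ^ b * (5 ^ c * m3)) := by
    rw [← e3, ← e2]
    exact Nat.Coprime.pow_left _ ((Nat.Prime.coprime_iff_not_dvd Nat.prime_two).2 h1)
  have hn' : n = 2 ^ a * (3 ^ b * (5 ^ c * m3)) := by rw [← e3, ← e2]; exact e1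
  rw [hn', sqs_mul c1, sqs_mul c2, sqs_mul c3]
  have t2 := sqs_two_pow a
  have t3 := sqs_three_pow b
  have t5 := sqs_five_pow c
  have tm := sqs_coprime_thirty hm3 hd3
  have key : ((2 ^ a * (3 ^ b * (5 ^ c * m3)) : ℕ) : ℝ) ^ (2 / 3 : ℝ) =
      ((2 : ℝ) ^ (2 / 3 : ℝ)) ^ a * (((3 : ℝ) ^ (2 / 3 : ℝ)) ^ b *
        (((5 : ℝ) ^ (2 / 3 : ℝ)) ^ c * (m3 : ℝ) ^ (2 / 3 : ℝ))) := by
    push_cast
    rw [Real.mul_rpow (by positivity) (by positivity), Real.mul_rpow (by positivity) (by positivity),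
      Real.mul_rpow (by positivity) (by positivity)]
    have e : ∀ (x : ℝ) (j : ℕ), 0 ≤ x → (x ^ j) ^ (2 / 3 : ℝ) = (x ^ (2 / 3 : ℝ)) ^ j := by
      intro x j hx
      rw [← Real.rpow_natCast, ← Real.rpow_natCast, ← Real.rpow_mul hx, ← Real.rpow_mul hx, mul_comm]
    rw [e 2 a (by norm_num), e 3 b (by norm_num), e 5 c (by norm_num)]
  rw [key]
  set A := ((2 : ℝ) ^ (2 / 3 : ℝ)) ^ a
  set B := ((3 : ℝ) ^ (2 / 3 : ℝ)) ^ b
  set D := ((5 : ℝ) ^ (2 / 3 : ℝ)) ^ c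
  set E := (m3 : ℝ) ^ (2 / 3 : ℝ)
  have hA : 0 ≤ A := by positivity
  have hB : 0 ≤ B := by positivity
  have hD : 0 ≤ D := by positivity
  have hE : 0 ≤ E := by positivity
  calc sqs (2 ^ a) * (sqs (3 ^ b) * (sqs (5 ^ c) * sqs m3))
      ≤ (1.811 * A) * ((1.325 * B) * ((1.107 * D) * E)) := by
        have q1 : sqs (5 ^ c) * sqs m3 ≤ (1.107 * D) * E :=
          mul_le_mul t5 tm (sqs_nonneg _) (by positivity)
        have q2 : sqs (3 ^ b) * (sqs (5 ^ c) * sqs m3) ≤ (1.325 * B) * ((1.107 * D) * E) :=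
          mul_le_mul t3 q1 (mul_nonneg (sqs_nonneg _) (sqs_nonneg _)) (by positivity)
        exact mul_le_mul t2 q2 (mul_nonneg (sqs_nonneg _)
          (mul_nonneg (sqs_nonneg _) (sqs_nonneg _))) (by positivity)
    _ = (1.811 * 1.325 * 1.107) * (A * (B * (D * E))) := by ring
    _ ≤ 2.66 * (A * (B * (D * E))) := by
        apply mul_le_mul_of_nonneg_right (by norm_num) (by positivity)

end Pool.Agent.Lib.MP_32a6f5_nt
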