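import Mathlib
import Pool.Agent.Lib.MP_32a6f5_nt.DivSum

/-! The weight inequality: for distinct primes `p` and `g_p = gcd (k, p - 1)`,
`∑ (3 log g_p - 2 log p) ≤ 2 ∑_{g ∣ k} √g`. -/

namespace Pool.Agent.Lib.MP_32a6f5_nt

open Finset

/-- `∑_{t ≤ √g} log (g / t²) ≤ 2 √g`. -/
theorem sum_log_le {g : ℕ} (hg : 0 < g) :
    ∑ t ∈ Icc 1 (Nat.sqrt g), (Real.log g - 2 * Real.log t) ≤ 2 * Real.sqrt g := by
  set N := Nat.sqrt g with hN
  have hg' : (0 : ℝ) < g := by exact_mod_cast hg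
  have hs : 0 < Real.sqrt g := Real.sqrt_pos.2 hg'
  have h1 : ∑ t ∈ Icc 1 N, (Real.log g - 2 * Real.log t) =
      2 * Real.log (Real.sqrt g ^ N / (Nat.factorial N : ℝ)) := by
    have hfac : (Nat.factorial N : ℝ) = ∏ t ∈ Icc 1 N, (t : ℝ) := by
      rw [← Finset.prod_Ico_id_eq_factorial]; push_cast; rfl
    rw [Real.log_div (by positivity) (by positivity), Real.log_pow, hfac, Real.log_prod
      (by intro t ht; rw [mem_Icc] at ht; exact_mod_cast (by omega : t ≠ 0)),
      Real.log_sqrt hg'.le, Finset.sum_sub_distrib, Finset.sum_const, Nat.card_Icc,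
      ← Finset.mul_sum]
    simp only [add_tsub_cancel_right, nsmul_eq_mul]
    ring
  rw [h1]
  have h2 := Real.pow_div_factorial_le_exp (Real.sqrt g) hs.le N
  have h3 : Real.log (Real.sqrt g ^ N / (Nat.factorial N : ℝ)) ≤ Real.sqrt g := by
    calc Real.log (Real.sqrt g ^ N / (Nat.factorial N : ℝ)) ≤ Real.log (Real.exp (Real.sqrt g)) :=
          Real.log_le_log (by positivity) h2
      _ = Real.sqrt g := Real.log_exp _
  linarith

theorem sum_weight_le {k : ℕ} (hk : 0 < k) (S : Finset ℕ) (hS : ∀ p ∈ S, p.Prime) :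
    ∑ p ∈ S, (3 * Real.log (Nat.gcd k (p - 1)) - 2 * Real.log p) ≤ 2 * sqs k := by
  classical
  set G : ℕ → ℕ := fun p => Nat.gcd k (p - 1) with hG
  set T : ℕ → ℕ := fun p => (p - 1) / G p with hT
  have hGpos : ∀ p, 0 < G p := fun p => Nat.gcd_pos_of_pos_left _ hk
  have hGT : ∀ p ∈ S, p = G p * T p + 1 := by
    intro p hp
    have h1 : G p * T p = p - 1 := Nat.mul_div_cancel' (Nat.gcd_dvd_right _ _)
    have := (hS p hp).two_le
    omega
  have hTpos : ∀ p ∈ S, 0 < T p := by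
    intro p hp
    rcases Nat.eq_zero_or_pos (T p) with h | h
    · have := hGT p hp
      rw [h] at this
      have := (hS p hp).two_le
      omega
    · exact h
  have hterm : ∀ p ∈ S, 3 * Real.log (G p) - 2 * Real.log p ≤
      Real.log (G p) - 2 * Real.log (T p) := by
    intro p hp
    have h1 : (0 : ℝ) < G p := by exact_mod_cast hGpos p
    have h2 : (0 : ℝ) < T p := by exact_mod_cast hTpos p hp
    have h3 : Real.log ((G p : ℝ) * T p) ≤ Real.log p := by
      apply Real.log_le_log (by positivity)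
      have := hGT p hp
      have : G p * T p ≤ p := by omega
      exact_mod_cast this
    rw [Real.log_mul h1.ne' h2.ne'] at h3
    linarith
  set S' := S.filter fun p => T p * T p ≤ G p with hS'
  have hout : ∀ p ∈ S, p ∉ S' → Real.log (G p) - 2 * Real.log (T p) ≤ 0 := by
    intro p hp hp'
    have h1 : G p < T p * T p := by
      by_contra h
      exact hp' (mem_filter.2 ⟨hp, not_lt.1 h⟩)
    have h2 : Real.log (G p) ≤ Real.log ((T p : ℝ) * T p) := by
      apply Real.log_le_log (by exact_mod_cast hGpos p)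
      exact_mod_cast h1.le
    have h3 : (T p : ℝ) ≠ 0 := by exact_mod_cast (hTpos p hp).ne'
    rw [Real.log_mul h3 h3] at h2
    linarith
  have hsplit : ∑ p ∈ S, (Real.log (G p) - 2 * Real.log (T p)) ≤
      ∑ p ∈ S', (Real.log (G p) - 2 * Real.log (T p)) := by
    rw [← Finset.sum_filter_add_sum_filter_not S (fun p => T p * T p ≤ G p)]
    have : ∑ p ∈ S.filter (fun p => ¬ (T p * T p ≤ G p)),
        (Real.log (G p) - 2 * Real.log (T p)) ≤ 0 := by
      refine Finset.sum_nonpos fun p hp => ?_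
      rw [mem_filter] at hp
      exact hout p hp.1 fun h => hp.2 (mem_filter.1 h).2
    linarith
  have hinj : Set.InjOn (fun p => (⟨G p, T p⟩ : Σ _ : ℕ, ℕ)) S' := by
    intro p hp q hq hpq
    simp only [Sigma.mk.injEq, heq_eq_eq] at hpq
    have h1 := hGT p (mem_filter.1 (mem_coe.1 hp)).1
    have h2 := hGT q (mem_filter.1 (mem_coe.1 hq)).1
    rw [h1, h2, hpq.1, hpq.2]
  have himage : ∑ p ∈ S', (Real.log (G p) - 2 * Real.log (T p)) =
      ∑ x ∈ S'.image (fun p => (⟨G p, T p⟩ : Σ _ : ℕ, ℕ)),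
        (Real.log x.1 - 2 * Real.log x.2) := by
    rw [Finset.sum_image hinj]
  have hsub : S'.image (fun p => (⟨G p, T p⟩ : Σ _ : ℕ, ℕ)) ⊆
      (k.divisors).sigma fun g => Icc 1 (Nat.sqrt g) := by
    intro x hx
    obtain ⟨p, hp, rfl⟩ := mem_image.1 hx
    rw [mem_filter] at hp
    rw [mem_sigma]
    refine ⟨Nat.mem_divisors.2 ⟨Nat.gcd_dvd_left _ _, hk.ne'⟩, ?_⟩
    rw [mem_Icc]
    exact ⟨hTpos p hp.1, Nat.le_sqrt.2 hp.2⟩
  have hbig : ∑ x ∈ S'.image (fun p => (⟨G p, T p⟩ : Σ _ : ℕ, ℕ)),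
        (Real.log x.1 - 2 * Real.log x.2) ≤
      ∑ x ∈ (k.divisors).sigma fun g => Icc 1 (Nat.sqrt g),
        (Real.log x.1 - 2 * Real.log x.2) := by
    refine Finset.sum_le_sum_of_subset_of_nonneg hsub fun x hx _ => ?_
    rw [mem_sigma, mem_Icc] at hx
    have h1 : x.2 * x.2 ≤ x.1 := Nat.le_sqrt.1 hx.2.2
    have h0 : (x.2 : ℝ) ≠ 0 := by exact_mod_cast (by omega : x.2 ≠ 0)
    have h2 : Real.log ((x.2 : ℝ) * x.2) ≤ Real.log x.1 := by
      apply Real.log_le_log (by positivity)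
      exact_mod_cast h1
    rw [Real.log_mul h0 h0] at h2
    linarith
  have hfin : ∑ x ∈ (k.divisors).sigma fun g => Icc 1 (Nat.sqrt g),
        (Real.log x.1 - 2 * Real.log x.2) ≤ 2 * sqs k := by
    rw [Finset.sum_sigma]
    unfold sqs
    rw [Finset.mul_sum]
    exact Finset.sum_le_sum fun g hg => sum_log_le (Nat.pos_of_mem_divisors hg)
  calc ∑ p ∈ S, (3 * Real.log (Nat.gcd k (p - 1)) - 2 * Real.log p)
      ≤ ∑ p ∈ S, (Real.log (G p) - 2 * Real.log (T p)) := Finset.sum_le_sum hterm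
    _ ≤ _ := hsplit
    _ = _ := himage
    _ ≤ _ := hbig
    _ ≤ _ := hfin

/-- The sum of `log gcd (k, p - 1)` over the primes dividing `M`. -/
theorem sum_log_gcd_le {k M : ℕ} (hk : 0 < k) (hM : M ≠ 0) :
    ∑ p ∈ M.primeFactors, Real.log (Nat.gcd k (p - 1)) ≤
      (2 / 3) * Real.log M + (2 / 3) * sqs k := by
  have h1 := sum_weight_le hk M.primeFactors fun p hp => Nat.prime_of_mem_primeFactors hp
  rw [Finset.sum_sub_distrib, ← Finset.mul_sum, ← Finset.mul_sum] at h1
  have h2 : ∑ p ∈ M.primeFactors, Real.log p ≤ Real.log M := by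
    rw [← Real.log_prod (by
      intro p hp
      exact_mod_cast (Nat.prime_of_mem_primeFactors hp).ne_zero)]
    apply Real.log_le_log
    · exact Finset.prod_pos fun p hp => by exact_mod_cast (Nat.prime_of_mem_primeFactors hp).pos
    · have : ∏ p ∈ M.primeFactors, p ≤ M :=
        Nat.le_of_dvd (Nat.pos_of_ne_zero hM) (Nat.prod_primeFactors_dvd M)
      calc ∏ p ∈ M.primeFactors, (p : ℝ) = ((∏ p ∈ M.primeFactors, p : ℕ) : ℝ) := by push_cast; rfl
        _ ≤ M := by exact_mod_cast this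
  linarith

end Pool.Agent.Lib.MP_32a6f5_nt
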