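import Mathlib
import Pool.Agent.Lib.MP_32a6f5_nt.Pairs
import Pool.Agent.Lib.MP_32a6f5_nt.Smooth

/-! Large exponents: for `k ≥ 32768` some prime `p ≤ k ^ 4` fails the divisibility. -/

namespace Pool.Agent.Lib.MP_32a6f5_nt

open Finset

theorem card_primeFactors_lt {k M : ℕ} (hM : M ≠ 0) (h : M < 2 ^ k) : M.primeFactors.card ≤ k := by
  have h1 : 2 ^ M.primeFactors.card ≤ ∏ p ∈ M.primeFactors, p :=
    Finset.pow_card_le_prod M.primeFactors (fun p => p) 2
      fun p hp => (Nat.prime_of_mem_primeFactors hp).two_le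
  have h2 : ∏ p ∈ M.primeFactors, p ≤ M :=
    Nat.le_of_dvd (Nat.pos_of_ne_zero hM) (Nat.prod_primeFactors_dvd M)
  have h3 : 2 ^ M.primeFactors.card < 2 ^ k := by omega
  exact ((Nat.pow_lt_pow_iff_right (by norm_num)).1 h3).le

/-- The final numerical inequality. -/
theorem numeric {y L : ℝ} (hy : 32 ≤ y) (hL : L ≤ 3 * (y / 32 + 2.4658)) :
    4 * L + (2 / 3) * (2.66 * y ^ 2) + (3 / 4) * 0.6932 < (1 / 12) * y ^ 3 * 0.6931 := by
  have h1 : 0 ≤ y ^ 2 * (y - 32) := by nlinarith [sq_nonneg y]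
  have h2 : 32 * y ≤ y ^ 2 := by nlinarith
  nlinarith

theorem exists_bad_prime {k b : ℕ} (hk : 32768 ≤ k)
    (h : ∀ p : ℕ, p.Prime → p ≤ k ^ 4 → (2 ^ k - 1) ∣ p ^ b * (p ^ k - 1)) : False := by
  classical
  set M := 2 ^ k - 1 with hMdef
  have hk0 : 0 < k := by omega
  have hpow1 : 2 ^ k = 2 * 2 ^ (k - 1) := by
    rw [← pow_succ']; congr 1; omega
  have hpk : 1 ≤ 2 ^ (k - 1) := Nat.one_le_two_pow
  have hM1 : 2 ^ (k - 1) ≤ M := by omega
  have hM0 : M ≠ 0 := by omega
  have hMlt : M < 2 ^ k := by omega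
  have hodd : ¬ 2 ∣ M := by omega
  -- the primes
  set P := (Nat.primesLE (k ^ 4)) \ M.primeFactors with hP
  have hPprime : ∀ p ∈ P, p.Prime := fun p hp =>
    Nat.prime_of_mem_primesLE (mem_sdiff.1 hp).1
  have hPle : ∀ p ∈ P, p ≤ k ^ 4 := fun p hp => Nat.le_of_mem_primesLE (mem_sdiff.1 hp).1
  have hroot : ∀ p ∈ P, (p : ZMod M) ^ k = 1 := by
    intro p hp
    have h1 := h p (hPprime p hp) (hPle p hp)
    have h2 : ¬ p ∣ M := fun hd => (mem_sdiff.1 hp).2
      (Nat.mem_primeFactors.2 ⟨hPprime p hp, hd, hM0⟩)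
    have h3 : Nat.Coprime M (p ^ b) :=
      Nat.Coprime.pow_right _ (Nat.Coprime.symm ((Nat.Prime.coprime_iff_not_dvd (hPprime p hp)).2 h2))
    have h4 : M ∣ p ^ k - 1 := h3.dvd_of_dvd_mul_left h1
    have h5 : ((p ^ k - 1 : ℕ) : ZMod M) = 0 := (ZMod.natCast_eq_zero_iff _ _).2 h4
    have h6 : 1 ≤ p ^ k := Nat.one_le_pow _ _ (hPprime p hp).pos
    rw [Nat.cast_sub h6, Nat.cast_pow, Nat.cast_one, sub_eq_zero] at h5
    exact h5
  set u := Nat.log (k ^ 4) (2 ^ (k - 1)) with hu
  have hk4 : 1 < k ^ 4 := Nat.one_lt_pow (by norm_num) (by omega)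
  have hYu : (k ^ 4) ^ u ≤ 2 ^ (k - 1) := Nat.pow_log_le_self _ (by positivity)
  have hYu' : 2 ^ (k - 1) < (k ^ 4) ^ (u + 1) := Nat.lt_pow_succ_log_self hk4 _
  have hcard := card_pow_le (k := k) hM0 (hYu.trans hM1) P hPprime hPle hroot
  -- real quantities
  set x : ℝ := (k : ℝ) with hx
  set L := Real.log x with hL
  have hx1 : (32768 : ℝ) ≤ x := by rw [hx]; exact_mod_cast hk
  have hxpos : 0 < x := by linarith
  have hLpos : 0 < L := Real.log_pos (by linarith)
  have hLx : L ≤ x := by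
    have := Real.log_le_sub_one_of_pos hxpos
    linarith
  have hlog2 : Real.log 2 < 0.6932 := by
    have := Real.log_two_lt_d9
    linarith
  have hlog2' : 0.6931 < Real.log 2 := by
    have := Real.log_two_gt_d9
    linarith
  have hlogY : Real.log ((k ^ 4 : ℕ) : ℝ) = 4 * L := by
    have : ((k ^ 4 : ℕ) : ℝ) = x ^ 4 := by rw [hx]; push_cast; rfl
    rw [this, Real.log_pow, ← hL]; norm_num
  have hu1 : (u : ℝ) * (4 * L) ≤ (x - 1) * Real.log 2 := by
    have h1 : (((k ^ 4) ^ u : ℕ) : ℝ) ≤ ((2 ^ (k - 1) : ℕ) : ℝ) := by exact_mod_cast hYu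
    have h2 := Real.log_le_log (by positivity) h1
    push_cast at h2
    rw [Real.log_pow, Real.log_pow, Real.log_pow, Nat.cast_sub hk0] at h2
    push_cast at h2
    exact h2
  have hu2 : (x - 1) * Real.log 2 ≤ ((u : ℝ) + 1) * (4 * L) := by
    have h1 : ((2 ^ (k - 1) : ℕ) : ℝ) ≤ (((k ^ 4) ^ (u + 1) : ℕ) : ℝ) := by exact_mod_cast hYu'.le
    have h2 := Real.log_le_log (by positivity) h1
    push_cast at h2
    rw [Real.log_pow, Real.log_pow, Real.log_pow, Nat.cast_sub hk0] at h2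
    push_cast at h2
    exact h2
  -- number of primes
  have hPcard : (u : ℝ) * x ^ 3 ≤ P.card := by
    have h1 : (Nat.primeCounting (k ^ 4) : ℝ) ≤ P.card + x := by
      have h2 : (Nat.primesLE (k ^ 4)).card ≤ P.card + M.primeFactors.card := by
        rw [hP]
        have := Finset.le_card_sdiff M.primeFactors (Nat.primesLE (k ^ 4))
        omega
      rw [Nat.primesLE_card_eq_primeCounting] at h2
      have h3 := card_primeFactors_lt hM0 hMlt
      have h4 : Nat.primeCounting (k ^ 4) ≤ P.card + k := by omega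
      have h5 : (Nat.primeCounting (k ^ 4) : ℝ) ≤ ((P.card + k : ℕ) : ℝ) := by exact_mod_cast h4
      rw [Nat.cast_add] at h5
      exact h5
    have h2 := Chebyshev.pi_ge (k ^ 4)
    rw [hlogY] at h2
    have h3 : Real.log (((k ^ 4 : ℕ) : ℝ) + 1) ≤ Real.log 2 + 4 * L := by
      rw [← hlogY, ← Real.log_mul (by norm_num) (by positivity)]
      apply Real.log_le_log (by positivity)
      have : (1 : ℝ) ≤ ((k ^ 4 : ℕ) : ℝ) := by exact_mod_cast hk4.le
      linarith
    rw [div_le_iff₀ (by linarith)] at h2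
    have h4 : ((k ^ 4 : ℕ) : ℝ) = x ^ 4 := by push_cast; rfl
    have h5 : x ^ 4 * Real.log 2 - (Real.log 2 + 4 * L) ≤ (P.card + x) * (4 * L) := by
      have := mul_le_mul_of_nonneg_right h1 (by linarith : (0 : ℝ) ≤ 4 * L)
      rw [h4] at h2 h3
      linarith
    have h6 : (u : ℝ) * x ^ 3 * (4 * L) ≤ P.card * (4 * L) := by
      have h7 : (u : ℝ) * x ^ 3 * (4 * L) ≤ x ^ 3 * ((x - 1) * Real.log 2) := by
        have := mul_le_mul_of_nonneg_left hu1 (by positivity : (0 : ℝ) ≤ x ^ 3)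
        linarith
      have h8 : Real.log 2 + 4 * L + x * (4 * L) ≤ x ^ 3 * Real.log 2 := by
        have a1 : x * (4 * L) ≤ 4 * x ^ 2 := by nlinarith
        have a2 : Real.log 2 + 4 * L ≤ 5 * x ^ 2 := by nlinarith
        have a3 : 9 * x ^ 2 ≤ x ^ 3 * 0.6931 := by nlinarith [sq_nonneg x]
        have a4 : x ^ 3 * 0.6931 ≤ x ^ 3 * Real.log 2 :=
          mul_le_mul_of_nonneg_left hlog2'.le (by positivity)
        linarith
      have h9 : x ^ 3 * ((x - 1) * Real.log 2) = x ^ 4 * Real.log 2 - x ^ 3 * Real.log 2 := by ring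
      nlinarith
    exact le_of_mul_le_mul_right h6 (by linarith)
  have hupos : 0 < u := by
    rcases Nat.eq_zero_or_pos u with h0 | h0
    · exfalso
      rw [h0] at hu2
      have hLs : L ≤ x / 100 := by
        have : L = Real.log (x / 8000) + Real.log 8000 := by
          rw [hL, ← Real.log_mul (by positivity) (by norm_num)]
          congr 1; field_simp
        have h1 := Real.log_le_sub_one_of_pos (by positivity : 0 < x / 8000)
        have h2 : Real.log 8000 ≤ 13 * Real.log 2 := by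
          rw [← Real.log_rpow (by norm_num)]
          apply Real.log_le_log (by norm_num)
          norm_num
        nlinarith
      push_cast at hu2
      nlinarith
    · exact h0
  have hRlow : (u : ℝ) * (3 * L) ≤ Real.log (R k M) := by
    have hu0 : (0 : ℝ) < u := by exact_mod_cast hupos
    have hRpos : (0 : ℝ) < R k M := by exact_mod_cast R_pos hM0
    have h1 : ((u : ℝ) * x ^ 3) ^ u ≤ (P.card : ℝ) ^ u := pow_le_pow_left₀ (by positivity) hPcard u
    have h2 : (P.card : ℝ) ^ u ≤ (u : ℝ) ^ u * R k M := by exact_mod_cast hcard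
    have h3 : (x ^ 3) ^ u ≤ R k M := by
      rw [mul_pow] at h1
      exact le_of_mul_le_mul_left (h1.trans h2) (by positivity)
    have h4 := Real.log_le_log (by positivity) h3
    rw [Real.log_pow, Real.log_pow] at h4
    exact_mod_cast h4
  have hRup := log_R_le hk0 hM0 hodd
  have hG := sum_log_gcd_le hk0 hM0
  have hsq := sqs_le hk0.ne'
  have hlogM : Real.log M ≤ x * Real.log 2 := by
    have h1 : (M : ℝ) ≤ ((2 ^ k : ℕ) : ℝ) := by exact_mod_cast hMlt.le
    have h2 := Real.log_le_log (by exact_mod_cast Nat.pos_of_ne_zero hM0) h1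
    push_cast at h2
    rwa [Real.log_pow] at h2
  -- cube root
  set y := x ^ (1 / 3 : ℝ) with hy
  have hy0 : 0 ≤ y := by positivity
  have hy3 : y ^ 3 = x := by
    rw [hy, ← Real.rpow_natCast, ← Real.rpow_mul hxpos.le]; norm_num
  have hy2 : x ^ (2 / 3 : ℝ) = y ^ 2 := by
    rw [hy, ← Real.rpow_natCast, ← Real.rpow_mul hxpos.le]; norm_num
  have hy32 : 32 ≤ y := by
    by_contra hlt
    push Not at hlt
    have : y ^ 3 < 32 ^ 3 := pow_lt_pow_left₀ hlt hy0 (by norm_num)
    rw [hy3] at this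
    norm_num at this
    linarith
  have hLy : L ≤ 3 * (y / 32 + 2.4658) := by
    have h1 : L = 3 * Real.log y := by
      rw [hL, ← hy3, Real.log_pow]; norm_num
    have h2 : Real.log y = Real.log (y / 32) + 5 * Real.log 2 := by
      have : (5 : ℝ) * Real.log 2 = Real.log 32 := by
        rw [show (32 : ℝ) = 2 ^ 5 by norm_num, Real.log_pow]; norm_num
      rw [this, ← Real.log_mul (by positivity) (by norm_num)]
      congr 1; ring
    have h3 := Real.log_le_sub_one_of_pos (by positivity : 0 < y / 32)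
    have h4 := Real.log_two_lt_d9
    rw [h1, h2]
    linarith
  have hnum := numeric hy32 hLy
  rw [hy2] at hsq
  rw [hy3] at hnum
  -- combine
  have hmain : (3 / 4) * ((x - 1) * Real.log 2) - 3 * L ≤
      L + ((2 / 3) * (x * Real.log 2) + (2 / 3) * (2.66 * y ^ 2)) := by
    have e1 : (3 / 4) * ((x - 1) * Real.log 2) - 3 * L ≤ (u : ℝ) * (3 * L) := by
      have : (3 / 4 : ℝ) * ((x - 1) * Real.log 2) ≤ (3 / 4) * (((u : ℝ) + 1) * (4 * L)) :=
        mul_le_mul_of_nonneg_left hu2 (by norm_num)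
      linarith
    have e2 : (2 / 3 : ℝ) * Real.log M ≤ (2 / 3) * (x * Real.log 2) :=
      mul_le_mul_of_nonneg_left hlogM (by norm_num)
    have e3 : (2 / 3 : ℝ) * sqs k ≤ (2 / 3) * (2.66 * y ^ 2) :=
      mul_le_mul_of_nonneg_left hsq (by norm_num)
    linarith
  have hf : (1 / 12) * x * 0.6931 ≤ (1 / 12) * x * Real.log 2 :=
    mul_le_mul_of_nonneg_left hlog2'.le (by positivity)
  linarith

end Pool.Agent.Lib.MP_32a6f5_nt
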