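import Mathlib

/-! For odd `k > 1` the number `2 ^ k - 1` does not divide `3 ^ b (3 ^ k - 1)`. -/

namespace Pool.Agent.Lib.MP_32a6f5_nt

theorem odd_not_dvd {k b : ℕ} (hk : Odd k) (hk1 : 1 < k) : ¬ (2 ^ k - 1) ∣ 3 ^ b * (3 ^ k - 1) := by
  intro h
  obtain ⟨m, rfl⟩ := hk
  have hm : 1 ≤ m := by omega
  set M := 2 ^ (2 * m + 1) - 1 with hM
  have h4 : 2 ^ (2 * m + 1) = 2 * 4 ^ m := by rw [pow_succ, pow_mul]; ring
  have h3 : 4 ^ m % 3 = 1 := by
    rw [Nat.pow_mod]; norm_num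
  have hM3 : M % 3 = 1 := by omega
  have h44 : 4 ∣ 4 ^ m := dvd_pow_self 4 (by omega)
  have hpos : 0 < 4 ^ m := by positivity
  have hM4 : M % 4 = 3 := by omega
  have hodd : Odd M := Nat.odd_iff.2 (by omega)
  have hcop : Nat.Coprime M (3 ^ b) := by
    refine Nat.Coprime.pow_right _ ?_
    rw [Nat.coprime_comm, Nat.Prime.coprime_iff_not_dvd Nat.prime_three]
    omega
  have h5 : M ∣ 3 ^ (2 * m + 1) - 1 := hcop.dvd_of_dvd_mul_left h
  have h6 : jacobiSym ((3 : ℕ) : ℤ) M ^ (2 * m + 1) = 1 := by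
    rw [← jacobiSym.pow_left, ← jacobiSym.one_left M]
    apply jacobiSym.mod_left'
    apply Int.ModEq.symm
    rw [Int.modEq_iff_dvd]
    have e : ((3 ^ (2 * m + 1) - 1 : ℕ) : ℤ) = ((3 : ℕ) : ℤ) ^ (2 * m + 1) - 1 := by
      rw [Nat.cast_sub (Nat.one_le_pow _ _ (by norm_num))]; push_cast; ring
    rw [← e]
    exact_mod_cast h5
  have h7 : jacobiSym ((3 : ℕ) : ℤ) M = -1 := by
    rw [jacobiSym.quadratic_reciprocity_three_mod_four (by norm_num) hM4]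
    have : jacobiSym (M : ℤ) 3 = jacobiSym 1 3 := by
      apply jacobiSym.mod_left'
      omega
    rw [this, jacobiSym.one_left]
  rw [h7, Odd.neg_one_pow ⟨m, rfl⟩] at h6
  norm_num at h6

end Pool.Agent.Lib.MP_32a6f5_nt
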