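import Mathlib

/-! The thirteen pairs: they work for all integers, and the test `n = 3` finds them among the
exponents `a - b` in `{1, 2, 4, 6, 12}`. -/

namespace Pool.Agent.Lib.MP_32a6f5_nt

theorem dvd_of_zmod {m : ℕ} {a b : ℕ} (h : ∀ x : ZMod m, x ^ a = x ^ b) (n : ℤ) :
    (m : ℤ) ∣ n ^ a - n ^ b := by
  rw [← ZMod.intCast_zmod_eq_zero_iff_dvd, Int.cast_sub, Int.cast_pow, Int.cast_pow, h, sub_self]

theorem test_three {k b : ℕ} (hb : 1 ≤ b) (hk : k = 1 ∨ k = 2 ∨ k = 4 ∨ k = 6 ∨ k = 12)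
    (hd : 2 ^ b * (2 ^ k - 1) ∣ 3 ^ b * (3 ^ k - 1)) :
    (k = 1 ∧ b = 1) ∨ (k = 2 ∧ (b = 1 ∨ b = 2 ∨ b = 3)) ∨
    (k = 4 ∧ (b = 1 ∨ b = 2 ∨ b = 3 ∨ b = 4)) ∨ (k = 6 ∧ (b = 2 ∨ b = 3)) ∨
    (k = 12 ∧ (b = 2 ∨ b = 3 ∨ b = 4)) := by
  have h2 : 2 ^ b ∣ 3 ^ k - 1 := by
    have h1 : 2 ^ b ∣ 3 ^ b * (3 ^ k - 1) := (Dvd.intro _ rfl).trans hd
    exact (Nat.Coprime.pow b b (by norm_num : Nat.Coprime 2 3)).dvd_of_dvd_mul_left h1
  have hb20 : b < 20 := by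
    by_contra hge
    push Not at hge
    have h3 : 2 ^ 20 ≤ 2 ^ b := Nat.pow_le_pow_right (by norm_num) hge
    have h4 : 3 ^ k - 1 < 2 ^ 20 := by
      rcases hk with rfl | rfl | rfl | rfl | rfl <;> norm_num
    have h5 : 0 < 3 ^ k - 1 := by
      rcases hk with rfl | rfl | rfl | rfl | rfl <;> norm_num
    have := Nat.le_of_dvd h5 h2
    omega
  rcases hk with rfl | rfl | rfl | rfl | rfl <;> interval_cases b <;>
    first
    | (exfalso; revert h2; norm_num; done)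
    | (exfalso; revert hd; norm_num; done)
    | simp

/-- The list of the thirteen pairs. -/
theorem forall_int {a b : ℕ} (h : (a, b) ∈ ([(2, 1), (3, 1), (4, 2), (5, 1), (5, 3), (6, 2), (7, 3),
    (8, 2), (8, 4), (9, 3), (14, 2), (15, 3), (16, 4)] : List (ℕ × ℕ))) (n : ℤ) :
    ((2 : ℤ) ^ a - 2 ^ b) ∣ n ^ a - n ^ b := by
  have comb2 : ∀ {x y z : ℤ}, IsCoprime x y → x ∣ z → y ∣ z → x * y ∣ z :=
    fun h hx hy => h.mul_dvd hx hy
  simp only [List.mem_cons, Prod.mk.injEq, List.not_mem_nil, or_false] at h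
  rcases h with ⟨rfl, rfl⟩ | ⟨rfl, rfl⟩ | ⟨rfl, rfl⟩ | ⟨rfl, rfl⟩ | ⟨rfl, rfl⟩ | ⟨rfl, rfl⟩ |
    ⟨rfl, rfl⟩ | ⟨rfl, rfl⟩ | ⟨rfl, rfl⟩ | ⟨rfl, rfl⟩ | ⟨rfl, rfl⟩ | ⟨rfl, rfl⟩ | ⟨rfl, rfl⟩
  · exact dvd_of_zmod (m := 2) (by decide) n
  · exact dvd_of_zmod (m := 6) (by decide) n
  · exact dvd_of_zmod (m := 12) (by decide) n
  · exact dvd_of_zmod (m := 30) (by decide) n
  · exact dvd_of_zmod (m := 24) (by decide) n
  · exact dvd_of_zmod (m := 60) (by decide) n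
  · exact dvd_of_zmod (m := 120) (by decide +kernel) n
  · exact dvd_of_zmod (m := 252) (by decide +kernel) n
  · exact dvd_of_zmod (m := 240) (by decide +kernel) n
  · exact dvd_of_zmod (m := 504) (by decide +kernel) n
  · have h1 := dvd_of_zmod (m := 180) (a := 14) (b := 2) (by decide +kernel) n
    have h2 := dvd_of_zmod (m := 91) (a := 14) (b := 2) (by decide +kernel) n
    have := comb2 (by norm_num : IsCoprime ((180 : ℕ) : ℤ) ((91 : ℕ) : ℤ)) h1 h2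
    norm_num at this ⊢
    exact this
  · have h1 := dvd_of_zmod (m := 360) (a := 15) (b := 3) (by decide +kernel) n
    have h2 := dvd_of_zmod (m := 91) (a := 15) (b := 3) (by decide +kernel) n
    have := comb2 (by norm_num : IsCoprime ((360 : ℕ) : ℤ) ((91 : ℕ) : ℤ)) h1 h2
    norm_num at this ⊢
    exact this
  · have h1 := dvd_of_zmod (m := 720) (a := 16) (b := 4) (by decide +kernel) n
    have h2 := dvd_of_zmod (m := 91) (a := 16) (b := 4) (by decide +kernel) n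
    have := comb2 (by norm_num : IsCoprime ((720 : ℕ) : ℤ) ((91 : ℕ) : ℤ)) h1 h2
    norm_num at this ⊢
    exact this

end Pool.Agent.Lib.MP_32a6f5_nt
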