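import Mathlib

/-! Small exponents: for `1 ≤ k < 13 + 2 ^ 15` the number `2 ^ k - 1` divides `3 ^ b * (3 ^ k - 1)`
only for `k` in `{1, 2, 4, 6, 12}`. -/

namespace Pool.Agent.Lib.MP_32a6f5_nt

/-- The part of `2 ^ k - 1` prime to `3` (for `k` up to `3 ^ 10`). -/
def cofac (k : ℕ) : ℕ := (2 ^ k - 1) / Nat.gcd (2 ^ k - 1) (3 ^ 11)

/-- The test for one exponent. -/
def chk (k : ℕ) : Bool :=
  Nat.beq (Nat.gcd (cofac k) 3) 1 && !(Nat.beq ((3 ^ k - 1) % cofac k) 0)

/-- The test for `2 ^ d` consecutive exponents. -/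
def chkBlock : ℕ → ℕ → Bool
  | 0, k => chk k
  | d + 1, k => chkBlock d k && chkBlock d (k + 2 ^ d)

theorem chkBlock_spec (d : ℕ) : ∀ k, chkBlock d k = true → ∀ j, k ≤ j → j < k + 2 ^ d →
    chk j = true := by
  induction d with
  | zero =>
    intro k h j h1 h2
    have : j = k := by simp at h2; omega
    subst this; exact h
  | succ d ih =>
    intro k h j h1 h2
    rw [chkBlock, Bool.and_eq_true] at h
    rcases lt_or_ge j (k + 2 ^ d) with h3 | h3
    · exact ih k h.1 j h1 h3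
    · exact ih (k + 2 ^ d) h.2 j h3 (by rw [pow_succ] at h2; omega)

theorem chk_block_test : chkBlock 15 13 = true := by decide +kernel

theorem not_dvd_of_chk {k b : ℕ} (h : chk k = true) : ¬ (2 ^ k - 1) ∣ 3 ^ b * (3 ^ k - 1) := by
  intro hd
  rw [chk, Bool.and_eq_true, Bool.not_eq_true'] at h
  obtain ⟨h1, h2⟩ := h
  have h1' : Nat.gcd (cofac k) 3 = 1 := Nat.eq_of_beq_eq_true h1
  have h2' : ¬ (3 ^ k - 1) % cofac k = 0 := by
    intro h0
    rw [h0] at h2
    simp at h2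
  have hc : cofac k ∣ 2 ^ k - 1 := Nat.div_dvd_of_dvd (Nat.gcd_dvd_left _ _)
  have hcop : Nat.Coprime (cofac k) (3 ^ b) := Nat.Coprime.pow_right b h1'
  exact h2' (Nat.mod_eq_zero_of_dvd (hcop.dvd_of_dvd_mul_left (hc.trans hd)))

theorem small_k {k b : ℕ} (hk : 1 ≤ k) (hk2 : k < 32781) (hd : (2 ^ k - 1) ∣ 3 ^ b * (3 ^ k - 1)) :
    k = 1 ∨ k = 2 ∨ k = 4 ∨ k = 6 ∨ k = 12 := by
  rcases Nat.lt_or_ge k 13 with h | h
  · by_contra hne
    have : chk k = true := by
      interval_cases k <;> first | (exfalso; omega) | decide +kernel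
    exact not_dvd_of_chk this hd
  · exact absurd hd (not_dvd_of_chk (chkBlock_spec 15 13 chk_block_test k h (by norm_num; omega)))

end Pool.Agent.Lib.MP_32a6f5_nt
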