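import Mathlib
import Pool.Agent.Lib.MP_32a6f5_nt.Large
import Pool.Agent.Lib.MP_32a6f5_nt.Small
import Pool.Agent.Lib.MP_32a6f5_nt.Pairs13

/-! Pairs `(a, b)` with `2 ^ a - 2 ^ b ∣ n ^ a - n ^ b`: it is enough to test `n = 3` when
`a - b < 2 ^ 15`, and the primes `n ≤ (a - b) ^ 4` otherwise. -/

namespace Pool.Agent.Lib.MP_32a6f5_nt.PolynomialWitness

open Pool.Agent.Lib.MP_32a6f5_nt

theorem cast_dvd {k b n : ℕ} (hn : 1 ≤ n)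
    (h : ((2 : ℤ) ^ (b + k) - 2 ^ b) ∣ (n : ℤ) ^ (b + k) - (n : ℤ) ^ b) :
    2 ^ b * (2 ^ k - 1) ∣ n ^ b * (n ^ k - 1) := by
  have e : ∀ m : ℕ, 1 ≤ m → ((m ^ b * (m ^ k - 1) : ℕ) : ℤ) = (m : ℤ) ^ (b + k) - (m : ℤ) ^ b := by
    intro m hm
    have h1 : 1 ≤ m ^ k := Nat.one_le_pow _ _ hm
    push_cast [Nat.cast_sub h1]
    ring
  rw [← Int.natCast_dvd_natCast, e 2 (by norm_num), e n hn]
  exact_mod_cast h

theorem result (a b : ℕ) (hb : 1 ≤ b) (hab : b < a) :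
    List.TFAE [
      ∀ n : ℤ, ((2 : ℤ) ^ a - 2 ^ b) ∣ n ^ a - n ^ b,
      ∀ p : ℕ, p.Prime → p ≤ (a - b) ^ 4 + 2 → ((2 : ℤ) ^ a - 2 ^ b) ∣ (p : ℤ) ^ a - (p : ℤ) ^ b,
      ((2 : ℤ) ^ a - 2 ^ b) ∣ 3 ^ a - 3 ^ b ∧ (2 ^ 15 ≤ a - b → ∀ p : ℕ, p.Prime →
        p ≤ (a - b) ^ 4 → ((2 : ℤ) ^ a - 2 ^ b) ∣ (p : ℤ) ^ a - (p : ℤ) ^ b),
      (a, b) ∈ ([(2, 1), (3, 1), (4, 2), (5, 1), (5, 3), (6, 2), (7, 3), (8, 2), (8, 4), (9, 3),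
        (14, 2), (15, 3), (16, 4)] : List (ℕ × ℕ))] := by
  obtain ⟨k, rfl⟩ : ∃ k, a = b + k := ⟨a - b, by omega⟩
  have hk : 1 ≤ k := by omega
  have hsub : b + k - b = k := by omega
  rw [hsub]
  tfae_have 1 → 2 := fun h p _ _ => h p
  tfae_have 2 → 3 := by
    intro h
    refine ⟨?_, fun _ p hp hle => h p hp (by omega)⟩
    have h1 : 1 ≤ k ^ 4 := Nat.one_le_pow _ _ hk
    exact_mod_cast h 3 Nat.prime_three (by omega)
  tfae_have 3 → 4 := by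
    rintro ⟨h3, hp⟩
    have h3' : 2 ^ b * (2 ^ k - 1) ∣ 3 ^ b * (3 ^ k - 1) := cast_dvd (n := 3) (by norm_num)
      (by exact_mod_cast h3)
    have hklt : k < 2 ^ 15 := by
      by_contra hge
      push Not at hge
      refine exists_bad_prime (k := k) (b := b) (by norm_num at hge ⊢; exact hge) ?_
      intro p hpp hle
      exact (Dvd.intro_left _ rfl).trans (cast_dvd hpp.one_le (hp hge p hpp hle))
    have hsmall := small_k hk (by norm_num at hklt; omega) ((Dvd.intro_left _ rfl).trans h3')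
    rcases test_three hb hsmall h3' with ⟨rfl, rfl⟩ | ⟨rfl, rfl | rfl | rfl⟩ |
      ⟨rfl, rfl | rfl | rfl | rfl⟩ | ⟨rfl, rfl | rfl⟩ | ⟨rfl, rfl | rfl | rfl⟩ <;> simp
  tfae_have 4 → 1 := fun h n => forall_int h n
  tfae_finish

end Pool.Agent.Lib.MP_32a6f5_nt.PolynomialWitness
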